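import Mathlib

set_option autoImplicit false
set_option linter.unusedSectionVars false
set_option linter.unusedVariables false

/-! # Random shifts have small value (copied from the library module `Q329/LT/Mgf` and
`Q329/LSU/Cover`, helper329) -/

open Finset

namespace Pool.Agent.H698.LU

lemma exp_le_quad {x : ℝ} (hx : |x| ≤ 1) : Real.exp x ≤ 1 + x + x ^ 2 := by
  have h := Real.abs_exp_sub_one_sub_id_le hx
  have h2 := (abs_le.mp h).2
  linarith

lemma one_factor {κ : Type} [Fintype κ] [Nonempty κ] (Y : κ → ℝ) (h lam : ℝ)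
    (hY0 : ∀ c, 0 ≤ Y c) (hYh : ∀ c, Y c ≤ h) (hlam : 0 ≤ lam) (hlh : lam * h ≤ 1) :
    ∑ k, Real.exp (lam * (Y k - (∑ k, Y k) / Fintype.card κ)) ≤
      Fintype.card κ * Real.exp (lam ^ 2 * h * ((∑ k, Y k) / Fintype.card κ)) := by
  have hκ : (0 : ℝ) < Fintype.card κ := by exact_mod_cast Fintype.card_pos
  obtain ⟨m, hm⟩ : ∃ m, m = (∑ k, Y k) / (Fintype.card κ : ℝ) := ⟨_, rfl⟩
  have hs : ∑ k, Y k = m * Fintype.card κ := by rw [hm]; field_simp
  rw [← hm]
  have hm0 : 0 ≤ m := by
    rw [hm]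
    exact div_nonneg (sum_nonneg fun k _ => hY0 k) hκ.le
  have hmh : m ≤ h := by
    rw [hm, div_le_iff₀ hκ]
    calc ∑ k, Y k ≤ ∑ _k : κ, h := sum_le_sum fun k _ => hYh k
      _ = h * Fintype.card κ := by rw [sum_const, card_univ, nsmul_eq_mul, mul_comm]
  have h1 : ∀ k, Real.exp (lam * (Y k - m)) ≤ 1 + lam * (Y k - m) + (lam * (Y k - m)) ^ 2 := by
    intro k
    apply exp_le_quad
    rw [abs_mul, abs_of_nonneg hlam]
    refine le_trans ?_ hlh
    refine mul_le_mul_of_nonneg_left ?_ hlam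
    rw [abs_le]
    have := hY0 k
    have := hYh k
    constructor <;> linarith
  have h2 : ∑ k, (1 + lam * (Y k - m) + (lam * (Y k - m)) ^ 2) =
      Fintype.card κ + lam ^ 2 * (∑ k, Y k ^ 2 - Fintype.card κ * m ^ 2) := by
    have e1 : ∀ k, (1 + lam * (Y k - m) + (lam * (Y k - m)) ^ 2) =
        (1 - lam * m + lam ^ 2 * m ^ 2) + (lam - 2 * lam ^ 2 * m) * Y k + lam ^ 2 * Y k ^ 2 := by
      intro k; ring
    rw [sum_congr rfl fun k _ => e1 k, sum_add_distrib, sum_add_distrib, ← mul_sum, ← mul_sum,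
      sum_const, card_univ, nsmul_eq_mul, hs]
    ring
  have h3 : ∑ k, Y k ^ 2 ≤ h * (m * Fintype.card κ) := by
    rw [← hs, mul_sum]
    refine sum_le_sum fun k _ => ?_
    rw [sq]
    exact mul_le_mul_of_nonneg_right (hYh k) (hY0 k)
  calc ∑ k, Real.exp (lam * (Y k - m)) ≤ ∑ k, (1 + lam * (Y k - m) + (lam * (Y k - m)) ^ 2) :=
        sum_le_sum fun k _ => h1 k
    _ = Fintype.card κ + lam ^ 2 * (∑ k, Y k ^ 2 - Fintype.card κ * m ^ 2) := h2
    _ ≤ Fintype.card κ + lam ^ 2 * (h * (m * Fintype.card κ)) := by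
        have : 0 ≤ Fintype.card κ * m ^ 2 := by positivity
        have e : ∑ k, Y k ^ 2 - Fintype.card κ * m ^ 2 ≤ h * (m * Fintype.card κ) := by linarith
        have := mul_le_mul_of_nonneg_left e (sq_nonneg lam)
        linarith
    _ = Fintype.card κ * (lam ^ 2 * h * m + 1) := by ring
    _ ≤ _ := mul_le_mul_of_nonneg_left (Real.add_one_le_exp _) hκ.le

/-- the number of choices with a large sum -/
lemma mgf {ι κ : Type} [Fintype ι] [DecidableEq ι] [Fintype κ] [Nonempty κ]
    (Y : ι → κ → ℝ) (h lam τ : ℝ) (hY0 : ∀ i c, 0 ≤ Y i c) (hYh : ∀ i c, Y i c ≤ h)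
    (hlam : 0 ≤ lam) (hlh : lam * h ≤ 1) (B : Finset (ι → κ))
    (hB : ∀ c ∈ B, (∑ i, ∑ k, Y i k) / Fintype.card κ + τ ≤ ∑ i, Y i (c i)) :
    (B.card : ℝ) *
      Real.exp (lam * τ - lam ^ 2 * h * ((∑ i, ∑ k, Y i k) / Fintype.card κ)) ≤
      (Fintype.card κ : ℝ) ^ Fintype.card ι := by
  classical
  obtain ⟨m, hm⟩ : ∃ m : ι → ℝ, m = fun i => (∑ k, Y i k) / (Fintype.card κ : ℝ) := ⟨_, rfl⟩
  have hms : (∑ i, ∑ k, Y i k) / (Fintype.card κ : ℝ) = ∑ i, m i := by
    rw [hm, sum_div]
  rw [hms] at hB ⊢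
  have h1 : ∑ c : ι → κ, ∏ i, Real.exp (lam * (Y i (c i) - m i)) =
      ∏ i, ∑ k, Real.exp (lam * (Y i k - m i)) := by
    rw [Finset.prod_univ_sum, Fintype.piFinset_univ]
  have h2 : ∏ i, ∑ k, Real.exp (lam * (Y i k - m i)) ≤
      ∏ i, ((Fintype.card κ : ℝ) * Real.exp (lam ^ 2 * h * m i)) := by
    refine prod_le_prod (fun i _ => sum_nonneg fun k _ => (Real.exp_pos _).le) fun i _ => ?_
    rw [hm]
    exact one_factor (Y i) h lam (hY0 i) (hYh i) hlam hlh
  have h3 : ∏ i, ((Fintype.card κ : ℝ) * Real.exp (lam ^ 2 * h * m i)) =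
      (Fintype.card κ : ℝ) ^ Fintype.card ι * Real.exp (lam ^ 2 * h * ∑ i, m i) := by
    rw [prod_mul_distrib, prod_const, card_univ, ← Real.exp_sum, ← mul_sum]
  have h4 : (B.card : ℝ) * Real.exp (lam * τ) ≤
      ∑ c : ι → κ, ∏ i, Real.exp (lam * (Y i (c i) - m i)) := by
    calc (B.card : ℝ) * Real.exp (lam * τ) = ∑ _c ∈ B, Real.exp (lam * τ) := by
          rw [sum_const, nsmul_eq_mul]
      _ ≤ ∑ c ∈ B, ∏ i, Real.exp (lam * (Y i (c i) - m i)) := by
          refine sum_le_sum fun c hc => ?_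
          rw [← Real.exp_sum, ← mul_sum, sum_sub_distrib]
          apply Real.exp_le_exp.mpr
          refine mul_le_mul_of_nonneg_left ?_ hlam
          have := hB c hc
          linarith
      _ ≤ _ := sum_le_sum_of_subset_of_nonneg (subset_univ _) fun c _ _ =>
          prod_nonneg fun i _ => (Real.exp_pos _).le
  rw [h1] at h4
  have h5 := h4.trans (h2.trans (le_of_eq h3))
  rw [Real.exp_sub, mul_div_assoc', div_le_iff₀ (Real.exp_pos _)]
  exact h5

/-- some choice of the shifts is bad for all targets -/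
theorem exists_bad {E Λ : Type} [Fintype E] [DecidableEq E] [Fintype Λ] [Nonempty Λ] (q : ℕ)
    [NeZero q] (hq : 2 ≤ q) (E0 : Finset E) (t : Λ → E → ZMod q) (η : ℝ) (hη : 0 < η) (hη1 : η ≤ 1)
    (h : Real.log (Fintype.card Λ) < η ^ 2 / 2 * E0.card) :
    ∃ g : E → ZMod q, ∀ l : Λ, ((E0.filter fun e => g e = t l e).card : ℝ) ≤
      (1 / q + η) * E0.card := by
  classical
  by_contra hcon
  push Not at hcon
  have hq0 : (0 : ℝ) < q := by
    have : 0 < q := by omega
    exact_mod_cast this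
  have hq2 : (2 : ℝ) ≤ q := by exact_mod_cast hq
  have hone : ∀ l : Λ, (((univ : Finset (E → ZMod q)).filter fun g =>
      (1 / q + η) * E0.card < ((E0.filter fun e => g e = t l e).card : ℝ)).card : ℝ) *
      Real.exp (η ^ 2 / 2 * E0.card) ≤ (q : ℝ) ^ Fintype.card E := by
    intro l
    have hmean : (∑ e : E, ∑ k : ZMod q, (if e ∈ E0 ∧ k = t l e then (1 : ℝ) else 0)) =
        E0.card := by
      have h1 : ∀ e : E, ∑ k : ZMod q, (if e ∈ E0 ∧ k = t l e then (1 : ℝ) else 0) =
          if e ∈ E0 then 1 else 0 := by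
        intro e
        by_cases he : e ∈ E0
        · simp [he]
        · simp [he]
      rw [sum_congr rfl fun e _ => h1 e]
      simp
    have hm := mgf (ι := E) (κ := ZMod q)
      (fun e k => if e ∈ E0 ∧ k = t l e then (1 : ℝ) else 0) 1 η (η * E0.card)
      (fun e k => by split_ifs <;> norm_num)
      (fun e k => by split_ifs <;> norm_num) hη.le (by linarith)
      ((univ : Finset (E → ZMod q)).filter fun g =>
        (1 / q + η) * E0.card < ((E0.filter fun e => g e = t l e).card : ℝ)) (by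
        intro g hg
        have hg := (mem_filter.1 hg).2
        rw [hmean, ZMod.card]
        have h2 : ∑ e : E, (if e ∈ E0 ∧ g e = t l e then (1 : ℝ) else 0) =
            ((E0.filter fun e => g e = t l e).card : ℝ) := by
          rw [card_filter]
          push_cast
          rw [← sum_filter, ← sum_filter, filter_and]
          simp only [filter_mem_eq_inter, univ_inter]
          rw [sum_const, sum_const]
          congr 2
          ext e
          simp
        rw [h2]
        have h3 : (E0.card : ℝ) / q + η * E0.card = (1 / q + η) * E0.card := by ring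
        rw [h3]
        exact hg.le)
    rw [hmean, ZMod.card] at hm
    refine le_trans (mul_le_mul_of_nonneg_left (Real.exp_le_exp.mpr ?_) (Nat.cast_nonneg _)) hm
    have h4 : (E0.card : ℝ) / q ≤ E0.card / 2 :=
      div_le_div_of_nonneg_left (Nat.cast_nonneg _) (by norm_num) hq2
    nlinarith [mul_le_mul_of_nonneg_left h4 (sq_nonneg η)]
  have hcover : (univ : Finset (E → ZMod q)) ⊆ (univ : Finset Λ).biUnion fun l =>
      univ.filter fun g => (1 / q + η) * E0.card < ((E0.filter fun e => g e = t l e).card : ℝ) := by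
    intro g _
    obtain ⟨l, hl⟩ := hcon g
    exact mem_biUnion.2 ⟨l, mem_univ _, mem_filter.2 ⟨mem_univ _, hl⟩⟩
  have h1 := (card_le_card hcover).trans card_biUnion_le
  have h2 : ((univ : Finset (E → ZMod q)).card : ℝ) * Real.exp (η ^ 2 / 2 * E0.card) ≤
      Fintype.card Λ * (q : ℝ) ^ Fintype.card E := by
    calc ((univ : Finset (E → ZMod q)).card : ℝ) * Real.exp (η ^ 2 / 2 * E0.card)
        ≤ (∑ l : Λ, (((univ : Finset (E → ZMod q)).filter fun g =>
          (1 / q + η) * E0.card < ((E0.filter fun e => g e = t l e).card : ℝ)).card : ℝ)) *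
          Real.exp (η ^ 2 / 2 * E0.card) := by
          refine mul_le_mul_of_nonneg_right ?_ (Real.exp_pos _).le
          exact_mod_cast h1
      _ = ∑ l : Λ, (((univ : Finset (E → ZMod q)).filter fun g =>
          (1 / q + η) * E0.card < ((E0.filter fun e => g e = t l e).card : ℝ)).card : ℝ) *
          Real.exp (η ^ 2 / 2 * E0.card) := by rw [sum_mul]
      _ ≤ ∑ _l : Λ, (q : ℝ) ^ Fintype.card E := sum_le_sum fun l _ => hone l
      _ = _ := by rw [sum_const, card_univ, nsmul_eq_mul]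
  have h3 : ((univ : Finset (E → ZMod q)).card : ℝ) = (q : ℝ) ^ Fintype.card E := by
    rw [card_univ, Fintype.card_fun, ZMod.card]
    push_cast
    rfl
  rw [h3, mul_comm] at h2
  have h4 : Real.exp (η ^ 2 / 2 * E0.card) ≤ Fintype.card Λ :=
    le_of_mul_le_mul_right h2 (by positivity)
  have h5 : (0 : ℝ) < Fintype.card Λ := by exact_mod_cast Fintype.card_pos
  have h6 := (Real.log_lt_iff_lt_exp h5).1 h
  linarith

end Pool.Agent.H698.LU
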