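import Pool.Agent.H698.LU.Prob

set_option autoImplicit false

/-! # A vertex is in the middle of its cluster with large probability (helper698) -/

namespace Pool.Agent.H698.LU

open Classical Finset
open Pool.Agent.Q128.NS (Inst numCon)
open Pool.Agent.TH912.LS (ball mem_ball ball_self ball_symm ball_trans ball_mono ball_adj)

section

variable {C V : Type} [Fintype V] {K M : ℕ}

/-- an injective numbering of the vertices -/
noncomputable def rk (v : V) : ℕ := Fintype.equivFin V v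

theorem rk_inj {v w : V} (h : rk v = rk w) : v = w :=
  (Fintype.equivFin V).injective (Fin.ext h)

/-- `v` has the largest reduced shift at `x` (and the first such vertex) -/
def Top (X : Inst C V) (x v : V) (ω : V → Sd K M) : Prop :=
  ∃ j, Rch Tf X ω v x j ∧ (∀ w, w ≠ v → ¬ Rch Tf X ω w x (j + 1)) ∧
    ∀ w, rk w < rk v → ¬ Rch Tf X ω w x j

/-- the reduced shift of `v` at `x` is by three larger than all others -/
def Mid (X : Inst C V) (x v : V) (ω : V → Sd K M) : Prop :=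
  ∃ j, Rch Tf X ω v x (j + 2) ∧ ∀ w, w ≠ v → ¬ Rch Tf X ω w x j

omit [Fintype V] in
theorem Mid.ctr {X : Inst C V} {x v : V} {ω : V → Sd K M} (h : Mid X x v ω) :
    Ctr Tf X ω x v := by
  obtain ⟨j, h1, h2⟩ := h
  exact ⟨j, h1.anti (by omega), h2⟩

omit [Fintype V] in
theorem Mid.ctr_adj {X : Inst C V} {x y v : V} {ω : V → Sd K M} (h : Mid X x v ω)
    (hxy : X.gr.Adj x y) : Ctr Tf X ω y v := by
  obtain ⟨j, h1, h2⟩ := h
  refine ⟨j + 1, ⟨by have := h1.1; omega, ?_⟩, fun w hw hr => h2 w hw ⟨by have := hr.1; omega, ?_⟩⟩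
  · exact ball_mono (ball_trans h1.2 (ball_adj hxy)) (by have := h1.1; omega)
  · exact ball_mono (ball_trans hr.2 (ball_adj hxy.symm)) (by have := hr.1; omega)

theorem exists_top (X : Inst C V) (x : V) (ω : V → Sd K M) : ∃ v, Top X x v ω := by
  have hex : ∃ j, ∃ w, Rch Tf X ω w x j := ⟨0, x, Nat.zero_le _, ball_self _ _ _⟩
  have hb : ∀ j, (∃ w, Rch Tf X ω w x j) → j ≤ K := by
    rintro j ⟨w, hw⟩
    exact hw.1.trans (Tf_le _)
  obtain ⟨j, hj, hmax⟩ : ∃ j, (∃ w, Rch Tf X ω w x j) ∧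
      ∀ i, (∃ w, Rch Tf X ω w x i) → i ≤ j :=
    ⟨Nat.findGreatest (fun j => ∃ w, Rch Tf X ω w x j) K,
      Nat.findGreatest_spec (P := fun j => ∃ w, Rch Tf X ω w x j) (Nat.zero_le K)
        ⟨x, Nat.zero_le _, ball_self _ _ _⟩,
      fun i hi => Nat.le_findGreatest (hb i hi) hi⟩
  obtain ⟨v, hv, hmin⟩ := exists_min_image (univ.filter fun w => Rch Tf X ω w x j) rk (by
    obtain ⟨w, hw⟩ := hj
    exact ⟨w, mem_filter.2 ⟨mem_univ _, hw⟩⟩)
  refine ⟨v, j, (mem_filter.1 hv).2, fun w _ hw => ?_, fun w hlt hw => ?_⟩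
  · have := hmax (j + 1) ⟨w, hw⟩
    omega
  · have := hmin w (mem_filter.2 ⟨mem_univ _, hw⟩)
    omega

/-- increase the shift of `v` by three -/
noncomputable def sh (v : V) (ω : V → Sd K M) : V → Sd K M :=
  if h : Tf (ω v) + 3 ≤ K then Function.update ω v (⟨(ω v).1 + 3, by
    unfold Tf at h; omega⟩, (ω v).2) else ω

omit [Fintype V] in
theorem sh_eq {v : V} {ω : V → Sd K M} (h : Tf (ω v) + 3 ≤ K) : sh v ω =
    Function.update ω v (⟨(ω v).1 + 3, by unfold Tf at h; omega⟩, (ω v).2) := dif_pos h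

omit [Fintype V] in
theorem sh_inj {v : V} {ω ω' : V → Sd K M} (h : Tf (ω v) + 3 ≤ K) (h' : Tf (ω' v) + 3 ≤ K)
    (he : sh v ω = sh v ω') : ω = ω' := by
  rw [sh_eq h, sh_eq h'] at he
  funext u
  by_cases hu : u = v
  · subst hu
    have h1 := congrFun he u
    rw [Function.update_self, Function.update_self] at h1
    have h2 := congrArg Prod.fst h1
    have h3 := congrArg Prod.snd h1
    simp only [Fin.mk.injEq] at h2
    exact Prod.ext (Fin.ext (by omega)) h3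
  · have h1 := congrFun he u
    rw [Function.update_of_ne hu, Function.update_of_ne hu] at h1
    exact h1

theorem Top.mid {X : Inst C V} {x v : V} {ω : V → Sd K M} (h : Top X x v ω)
    (hK : Tf (ω v) + 3 ≤ K) : Mid X x v (sh v ω) := by
  obtain ⟨j, h1, h2, -⟩ := h
  have hv : Tf (sh v ω v) = Tf (ω v) + 3 := by
    rw [sh_eq hK, Function.update_self]
    rfl
  refine ⟨j + 1, ⟨?_, ?_⟩, fun w hw hr => h2 w hw ?_⟩
  · rw [hv]; have := h1.1; omega
  · rw [hv]
    exact ball_mono h1.2 (by omega)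
  · have : sh v ω w = ω w := by rw [sh_eq hK, Function.update_of_ne hw]
    unfold Rch at hr ⊢
    rw [this] at hr
    exact hr

theorem Wt_sh {β : ℝ} (h0 : 0 ≤ β) (h1 : β ≤ 1) {v : V} {ω : V → Sd K M}
    (hK : Tf (ω v) + 3 ≤ K) : β ^ 3 * Wt β ω ≤ Wt β (sh v ω) := by
  unfold Wt
  rw [← mul_prod_erase univ _ (mem_univ v), ← mul_prod_erase univ (fun u => pf β (sh v ω u))
    (mem_univ v)]
  have h2 : ∏ u ∈ univ.erase v, pf β (sh v ω u) = ∏ u ∈ univ.erase v, pf β (ω u) := by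
    refine prod_congr rfl fun u hu => ?_
    rw [sh_eq hK, Function.update_of_ne (mem_erase.1 hu).1]
  rw [h2, ← mul_assoc]
  refine mul_le_mul_of_nonneg_right ?_ (prod_nonneg fun u _ => pf_nonneg h0 h1 _)
  have h3 := gw_shift h0 K (ω v).1 hK
  have h4 : pf β (sh v ω v) = gw β K ((ω v).1 + 3) / M := by
    rw [sh_eq hK, Function.update_self]
    rfl
  rw [h4]
  unfold pf
  rw [← mul_div_assoc]
  exact div_le_div_of_nonneg_right h3 (Nat.cast_nonneg _)

theorem mid_ge {β : ℝ} (h0 : 0 ≤ β) (h1 : β ≤ 1) (hM : 0 < M) (hK : 2 ≤ K) (X : Inst C V)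
    (x v : V) :
    β ^ 3 * ∑ ω ∈ (univ : Finset (V → Sd K M)).filter (Top X x v), Wt β ω ≤
      (∑ ω ∈ (univ : Finset (V → Sd K M)).filter (Mid X x v), Wt β ω) + β ^ (K + 1) := by
  have hsplit : ∑ ω ∈ (univ : Finset (V → Sd K M)).filter (Top X x v), Wt β ω ≤
      (∑ ω ∈ (univ : Finset (V → Sd K M)).filter
        (fun ω => Top X x v ω ∧ Tf (ω v) + 3 ≤ K), Wt β ω) +
      ∑ ω ∈ (univ : Finset (V → Sd K M)).filter (fun ω => K - 2 ≤ Tf (ω v)), Wt β ω := by
    have e1 := sum_filter_add_sum_filter_not ((univ : Finset (V → Sd K M)).filter (Top X x v))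
      (fun ω => Tf (ω v) + 3 ≤ K) (Wt β)
    rw [filter_filter, filter_filter] at e1
    rw [← e1]
    refine add_le_add_right ?_ _
    apply sum_le_sum_of_subset_of_nonneg
    · intro ω hω
      obtain ⟨-, -, h3⟩ := mem_filter.1 hω
      exact mem_filter.2 ⟨mem_univ _, by omega⟩
    · exact fun ω _ _ => Wt_nonneg h0 h1 ω
  have htail : ∑ ω ∈ (univ : Finset (V → Sd K M)).filter (fun ω => K - 2 ≤ Tf (ω v)), Wt β ω =
      β ^ (K - 2) := by
    have e0 := Wt_one (K := K) (β := β) hM v (fun a => K - 2 ≤ Tf a)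
    have e1 := pf_filter (K := K) (M := M) (β := β) hM (fun t => K - 2 ≤ t)
    have e2 := gw_tail β K (K - 2) (Nat.sub_le _ _)
    refine Eq.trans (sum_congr ?_ fun _ _ => rfl) (e0.trans
      (Eq.trans (sum_congr ?_ fun _ _ => rfl) (e1.trans
        (Eq.trans (sum_congr ?_ fun _ _ => rfl) e2))))
    · ext ω; simp
    · ext a; simp [Tf]
    · ext t; simp
  have hmain : β ^ 3 * ∑ ω ∈ (univ : Finset (V → Sd K M)).filter
        (fun ω => Top X x v ω ∧ Tf (ω v) + 3 ≤ K), Wt β ω ≤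
      ∑ ω ∈ (univ : Finset (V → Sd K M)).filter (Mid X x v), Wt β ω := by
    rw [mul_sum]
    obtain ⟨S, hS⟩ : ∃ S, S = (univ : Finset (V → Sd K M)).filter
        (fun ω => Top X x v ω ∧ Tf (ω v) + 3 ≤ K) := ⟨_, rfl⟩
    rw [← hS]
    have hS' : ∀ ω ∈ S, Top X x v ω ∧ Tf (ω v) + 3 ≤ K := by
      intro ω hω
      rw [hS] at hω
      exact (mem_filter.1 hω).2
    have g1 : ∑ ω ∈ S, β ^ 3 * Wt β ω ≤ ∑ ω ∈ S, Wt β (sh v ω) :=
      sum_le_sum fun ω hω => Wt_sh h0 h1 (hS' ω hω).2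
    have g2 : ∑ ω ∈ S, Wt β (sh v ω) = ∑ ω ∈ S.image (sh v), Wt β ω := by
      rw [sum_image]
      intro ω hω ω' hω' he
      exact sh_inj (hS' _ (mem_coe.1 hω)).2 (hS' _ (mem_coe.1 hω')).2 he
    rw [g2] at g1
    refine g1.trans ?_
    apply sum_le_sum_of_subset_of_nonneg
    · intro ω hω
      obtain ⟨ω', hω', rfl⟩ := mem_image.1 hω
      obtain ⟨h3, h4⟩ := hS' _ hω'
      exact mem_filter.2 ⟨mem_univ _, h3.mid h4⟩
    · exact fun ω _ _ => Wt_nonneg h0 h1 ω
  have hb3 : 0 ≤ β ^ 3 := pow_nonneg h0 _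
  have h5 := mul_le_mul_of_nonneg_left hsplit hb3
  rw [mul_add, htail] at h5
  have h6 : β ^ 3 * β ^ (K - 2) = β ^ (K + 1) := by
    rw [← pow_add]
    congr 1
    omega
  rw [h6] at h5
  linarith

/-- the vertex `x` is in the middle of a cluster -/
def Good (X : Inst C V) (x : V) (ω : V → Sd K M) : Prop := ∃ v, Mid X x v ω

theorem good_ge {β : ℝ} (h0 : 0 ≤ β) (h1 : β ≤ 1) (hM : 0 < M) (hK : 2 ≤ K) (X : Inst C V)
    (x : V) : β ^ 3 - Fintype.card V * β ^ (K + 1) ≤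
      ∑ ω ∈ (univ : Finset (V → Sd K M)).filter (Good X x), Wt β ω := by
  have e1 : (1 : ℝ) ≤ ∑ v, ∑ ω ∈ (univ : Finset (V → Sd K M)).filter (Top X x v), Wt β ω := by
    rw [← Wt_total (V := V) (K := K) (M := M) (β := β) hM]
    refine le_trans (sum_le_sum_of_subset_of_nonneg (t := univ.biUnion fun v =>
      (univ : Finset (V → Sd K M)).filter (Top X x v)) ?_ fun ω _ _ => Wt_nonneg h0 h1 ω)
      (sum_union_le _ _ _ (Wt_nonneg h0 h1))
    intro ω _
    obtain ⟨v, hv⟩ := exists_top X x ω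
    exact mem_biUnion.2 ⟨v, mem_univ _, mem_filter.2 ⟨mem_univ _, hv⟩⟩
  have e2 : ∑ v, ∑ ω ∈ (univ : Finset (V → Sd K M)).filter (Mid X x v), Wt β ω ≤
      ∑ ω ∈ (univ : Finset (V → Sd K M)).filter (Good X x), Wt β ω := by
    rw [← sum_biUnion]
    · apply sum_le_sum_of_subset_of_nonneg
      · intro ω hω
        obtain ⟨v, -, hv⟩ := mem_biUnion.1 hω
        exact mem_filter.2 ⟨mem_univ _, v, (mem_filter.1 hv).2⟩
      · exact fun ω _ _ => Wt_nonneg h0 h1 ω
    · intro v _ v' _ hne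
      rw [Function.onFun, disjoint_left]
      intro ω h3 h4
      exact hne ((mem_filter.1 h3).2.ctr.unique (mem_filter.1 h4).2.ctr)
  have e3 : β ^ 3 * ∑ v, ∑ ω ∈ (univ : Finset (V → Sd K M)).filter (Top X x v), Wt β ω ≤
      (∑ v, ∑ ω ∈ (univ : Finset (V → Sd K M)).filter (Mid X x v), Wt β ω) +
      Fintype.card V * β ^ (K + 1) := by
    rw [mul_sum]
    refine (sum_le_sum fun v _ => mid_ge h0 h1 hM hK X x v).trans (le_of_eq ?_)
    rw [sum_add_distrib, sum_const, card_univ, nsmul_eq_mul]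
  have hb3 : 0 ≤ β ^ 3 := pow_nonneg h0 _
  nlinarith [mul_le_mul_of_nonneg_left e1 hb3]

/-- the expected number of cut constraints is small -/
theorem cut_le {β : ℝ} (h0 : 0 ≤ β) (h1 : β ≤ 1) (hM : 0 < M) (hK : 2 ≤ K) (X : Inst C V) :
    ∑ ω : V → Sd K M, Wt β ω * ((cut Tf X ω).card : ℝ) ≤
      numCon X * (1 - β ^ 3 + Fintype.card V * β ^ (K + 1)) := by
  have hcon : numCon X = (univ.filter fun e : V × V => X.con e.1 e.2 ≠ none).card := by
    unfold numCon
    rw [ncard_filter]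
    congr
  have hbad : ∀ x : V, ∑ ω ∈ (univ : Finset (V → Sd K M)).filter (fun ω => ¬ Good X x ω),
      Wt β ω ≤ 1 - β ^ 3 + Fintype.card V * β ^ (K + 1) := by
    intro x
    have e1 := sum_filter_add_sum_filter_not (univ : Finset (V → Sd K M)) (Good X x) (Wt β)
    rw [Wt_total hM] at e1
    have e2 := good_ge (M := M) h0 h1 hM hK X x
    linarith
  have hcut : ∀ ω : V → Sd K M, ((cut Tf X ω).card : ℝ) ≤
      ∑ e ∈ univ.filter (fun e : V × V => X.con e.1 e.2 ≠ none),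
        if ¬ Good X e.1 ω then (1 : ℝ) else 0 := by
    intro ω
    rw [← sum_filter, sum_const, nsmul_eq_mul, mul_one, filter_filter, Nat.cast_le]
    refine card_le_card fun e he => ?_
    obtain ⟨-, h3, h4⟩ := mem_filter.1 he
    refine mem_filter.2 ⟨mem_univ _, h3, fun hg => h4 ?_⟩
    obtain ⟨v, hv⟩ := hg
    by_cases hee : e.1 = e.2
    · exact ⟨v, hv.ctr, by rw [← hee]; exact hv.ctr⟩
    · exact ⟨v, hv.ctr, hv.ctr_adj ⟨hee, Or.inl h3⟩⟩
  calc ∑ ω : V → Sd K M, Wt β ω * ((cut Tf X ω).card : ℝ)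
      ≤ ∑ ω : V → Sd K M, Wt β ω * ∑ e ∈ univ.filter (fun e : V × V => X.con e.1 e.2 ≠ none),
        (if ¬ Good X e.1 ω then (1 : ℝ) else 0) :=
        sum_le_sum fun ω _ => mul_le_mul_of_nonneg_left (hcut ω) (Wt_nonneg h0 h1 ω)
    _ = ∑ e ∈ univ.filter (fun e : V × V => X.con e.1 e.2 ≠ none), ∑ ω : V → Sd K M,
        Wt β ω * (if ¬ Good X e.1 ω then (1 : ℝ) else 0) := by
        simp only [mul_sum]
        rw [sum_comm]
    _ = ∑ e ∈ univ.filter (fun e : V × V => X.con e.1 e.2 ≠ none),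
        ∑ ω ∈ (univ : Finset (V → Sd K M)).filter (fun ω => ¬ Good X e.1 ω), Wt β ω := by
        refine sum_congr rfl fun e _ => ?_
        rw [sum_filter]
        refine sum_congr rfl fun ω _ => ?_
        split_ifs <;> simp
    _ ≤ ∑ e ∈ univ.filter (fun e : V × V => X.con e.1 e.2 ≠ none),
        (1 - β ^ 3 + Fintype.card V * β ^ (K + 1)) := sum_le_sum fun e _ => hbad e.1
    _ = numCon X * (1 - β ^ 3 + Fintype.card V * β ^ (K + 1)) := by
        rw [sum_const, nsmul_eq_mul, hcon]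

end

end Pool.Agent.H698.LU
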