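import Pool.Graph.R_pool_sql_team_seeded_3997aac3.Q128.NS.Defs
import Pool.Graph.R_pool_sql_team_seeded_3997aac3.Q128.NS.SeedDefs

set_option autoImplicit false

/-! # Unique games as instances of the LOCAL model: definitions (helper698) -/

namespace Pool.Agent.H698.LU

open Pool.Agent.Q128.NS (Inst)

/-- the constraints go from vertices on the side `true` to vertices on the side `false` -/
def Bipartite {C V : Type} (X : Inst C V) : Prop :=
  ∀ u v, X.con u v ≠ none → X.side u = true ∧ X.side v = false

/-- linear unique game modulo `q`: the constraint permutations are the translations -/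
def Linear {q : ℕ} {V : Type} (X : Inst (Equiv.Perm (ZMod q)) V) : Prop :=
  ∀ u v π, X.con u v = some π → ∃ a : ZMod q, ∀ x, π x = x + a

/-- the number of constraints satisfied by the labelling `L`, if `sat c s t` means that the labels
`s`, `t` satisfy a constraint `c` -/
noncomputable def numSat {C Q V : Type} (sat : C → Q → Q → Prop) (X : Inst C V) (L : V → Q) : ℕ :=
  {e : V × V | ∃ c, X.con e.1 e.2 = some c ∧ sat c (L e.1) (L e.2)}.ncard

/-- a unique constraint is a permutation `π` of the labels; it is satisfied by the labels `s`, `t`
if `π s = t` -/
def uniq {Q : Type} (π : Equiv.Perm Q) (s t : Q) : Prop := π s = t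

/-- value one: some labelling satisfies all constraints -/
def ValueOne {C Q V : Type} (sat : C → Q → Q → Prop) (X : Inst C V) : Prop :=
  ∃ L : V → Q, ∀ u v c, X.con u v = some c → sat c (L u) (L v)

end Pool.Agent.H698.LU
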