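import Pool.Agent.H698.LU.Defs
import Pool.Agent.H698.LU.Bad
import Pool.Graph.R_pool_sql_team_seeded_3997aac3.Q128.NS.Main

set_option autoImplicit false

/-! # Non-signalling processes on unique games of value one (helper698) -/

namespace Pool.Agent.H698.LU

open Classical Finset
open Pool.Agent.Q128.NS hiding Separating Satisfiable numSat
open Pool.Agent.W179.Erdos (FCyc)

/-- the analytic estimate -/
theorem analytic' {δ a lam c x C2 D1 nM ρ : ℝ} {r : ℕ} (hδ : 0 < δ) (hδ1 : δ ≤ 1) (hD1 : 1 ≤ D1)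
    (ha : a = 1 / (8 * (1 + Real.log (1 / δ)))) (hρ : 0 < ρ) (hlam : lam = Real.log (1 / ρ))
    (hlam0 : 0 < lam)
    (hc0 : 0 < c) (hc1 : 2 * c ≤ a * lam) (hc2 : c * (16 * Real.log D1) ≤ 1) (hc3 : c ≤ 1 / 8)
    (hx : 0 ≤ x) (hr : (r : ℝ) ≤ c * x) (hnM : nM ≤ C2 * Real.exp (-x)) (hnM0 : 0 ≤ nM)
    (hlarge : Real.log (1 + 64 * D1 ^ 2 * C2 / δ) ≤ c * x) (hC2 : 0 ≤ C2) :
    ∃ k : ℕ, ρ ^ k + k ^ 2 * (4 * D1 ^ (2 * r + 2) * nM) / δ ^ k ≤
      Real.exp (-(c * x)) := by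
  have hlogε : 0 ≤ Real.log (1 / δ) := Real.log_nonneg (by
    rw [le_div_iff₀ hδ]
    linarith)
  have ha0 : 0 < a := by rw [ha]; positivity
  have ha1 : a ≤ 1 := by
    rw [ha, div_le_one (by positivity)]
    linarith
  have haε : a * Real.log (1 / δ) ≤ 1 / 8 := by
    rw [ha, div_mul_eq_mul_div, one_mul, div_le_div_iff₀ (by positivity) (by norm_num)]
    linarith
  have hlogD : 0 ≤ Real.log D1 := Real.log_nonneg hD1
  have hcx : 0 ≤ c * x := by positivity
  obtain ⟨k, hk⟩ : ∃ k : ℕ, k = ⌈a * x⌉₊ := ⟨_, rfl⟩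
  have hk1 : a * x ≤ k := by rw [hk]; exact Nat.le_ceil _
  have hk2 : (k : ℝ) ≤ a * x + 1 := by
    rw [hk]
    exact (Nat.ceil_lt_add_one (by positivity)).le
  refine ⟨k, ?_⟩
  -- the first term
  have t1 : ρ ^ k ≤ Real.exp (-(2 * (c * x))) := by
    have h1 : ρ ^ k = Real.exp (-(k * lam)) := by
      rw [hlam, ← Real.log_pow, ← Real.log_inv, Real.exp_log (by positivity), one_div, inv_pow,
        inv_inv]
    rw [h1]
    apply Real.exp_le_exp.mpr
    have h3 : a * x * lam ≤ k * lam := mul_le_mul_of_nonneg_right hk1 hlam0.le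
    have h4 : 2 * c * x ≤ a * lam * x := mul_le_mul_of_nonneg_right hc1 hx
    nlinarith
  -- the second term
  have t2 : (k : ℝ) ^ 2 ≤ 16 * Real.exp (x / 2) := by
    have h1 : (k : ℝ) ≤ 4 * Real.exp (x / 4) := by
      have h2 := Real.add_one_le_exp (x / 4)
      have h3 : a * x ≤ x := by nlinarith
      linarith
    calc (k : ℝ) ^ 2 ≤ (4 * Real.exp (x / 4)) ^ 2 := by gcongr
      _ = 16 * Real.exp (x / 2) := by
          rw [mul_pow, ← Real.exp_nat_mul]
          norm_num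
          ring_nf
  have t3 : D1 ^ (2 * r + 2) ≤ D1 ^ 2 * Real.exp (x / 8) := by
    rw [pow_add, mul_comm]
    refine mul_le_mul_of_nonneg_left ?_ (by positivity)
    have h1 : D1 ^ (2 * r) = Real.exp (2 * r * Real.log D1) := by
      have : Real.exp (2 * r * Real.log D1) = Real.exp (((2 * r : ℕ) : ℝ) * Real.log D1) := by
        push_cast; rfl
      rw [this, ← Real.log_pow, Real.exp_log (by positivity)]
    rw [h1]
    apply Real.exp_le_exp.mpr
    have h2 : (r : ℝ) * Real.log D1 ≤ c * x * Real.log D1 :=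
      mul_le_mul_of_nonneg_right hr hlogD
    have h3 : c * (16 * Real.log D1) * x ≤ 1 * x := mul_le_mul_of_nonneg_right hc2 hx
    nlinarith
  have t4 : 1 / δ ^ k ≤ 1 / δ * Real.exp (x / 8) := by
    have h1 : 1 / δ ^ k = Real.exp (k * Real.log (1 / δ)) := by
      rw [← Real.log_pow, Real.exp_log (by positivity), one_div, one_div, inv_pow]
    have h2 : 1 / δ = Real.exp (Real.log (1 / δ)) := (Real.exp_log (by positivity)).symm
    rw [h1]
    calc Real.exp (k * Real.log (1 / δ)) ≤ Real.exp (Real.log (1 / δ) + x / 8) := by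
          apply Real.exp_le_exp.mpr
          have h3 : (k : ℝ) * Real.log (1 / δ) ≤ (a * x + 1) * Real.log (1 / δ) :=
            mul_le_mul_of_nonneg_right hk2 hlogε
          have h4 : a * Real.log (1 / δ) * x ≤ 1 / 8 * x := mul_le_mul_of_nonneg_right haε hx
          nlinarith
      _ = 1 / δ * Real.exp (x / 8) := by rw [Real.exp_add, ← h2]
  have t5 : (k : ℝ) ^ 2 * (4 * D1 ^ (2 * r + 2) * nM) / δ ^ k ≤
      64 * D1 ^ 2 * C2 / δ * Real.exp (-(x / 4)) := by
    calc (k : ℝ) ^ 2 * (4 * D1 ^ (2 * r + 2) * nM) / δ ^ k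
        = k ^ 2 * (4 * D1 ^ (2 * r + 2) * nM) * (1 / δ ^ k) := by rw [mul_one_div]
      _ ≤ 16 * Real.exp (x / 2) * (4 * (D1 ^ 2 * Real.exp (x / 8)) * (C2 * Real.exp (-x))) *
          (1 / δ * Real.exp (x / 8)) := by gcongr
      _ = 64 * D1 ^ 2 * C2 / δ * (Real.exp (x / 2) * Real.exp (x / 8) * Real.exp (-x) *
          Real.exp (x / 8)) := by ring
      _ = 64 * D1 ^ 2 * C2 / δ * Real.exp (-(x / 4)) := by
          rw [← Real.exp_add, ← Real.exp_add, ← Real.exp_add]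
          congr 2
          ring
  have t6 : Real.exp (-(x / 4)) ≤ Real.exp (-(2 * (c * x))) := by
    apply Real.exp_le_exp.mpr
    nlinarith
  have hC : 0 ≤ 64 * D1 ^ 2 * C2 / δ := by positivity
  calc ρ ^ k + k ^ 2 * (4 * D1 ^ (2 * r + 2) * nM) / δ ^ k
      ≤ Real.exp (-(2 * (c * x))) + 64 * D1 ^ 2 * C2 / δ * Real.exp (-(2 * (c * x))) :=
        add_le_add t1 (t5.trans (mul_le_mul_of_nonneg_left t6 hC))
    _ = (1 + 64 * D1 ^ 2 * C2 / δ) * Real.exp (-(2 * (c * x))) := by ring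
    _ ≤ Real.exp (c * x) * Real.exp (-(2 * (c * x))) := by
        refine mul_le_mul_of_nonneg_right ?_ (Real.exp_pos _).le
        rw [← Real.log_le_iff_le_exp (by positivity)]
        exact hlarge
    _ = Real.exp (-(c * x)) := by
        rw [← Real.exp_add]
        congr 1
        ring

variable {U : Type} {q : ℕ}

/-- the constraints: translations by the shifts -/
def km (g : U × U → ZMod q) (e : U × U) : Equiv.Perm (ZMod q) := Equiv.addRight (g e)

theorem cover_bip (G : SimpleGraph U) (g' g : U × U → ZMod q) :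
    Bipartite (cov G g' (km g)) := by
  intro u v h
  rw [con_ne] at h
  exact ⟨h.1, h.2.1⟩

theorem cover_lin (G : SimpleGraph U) (g' g : U × U → ZMod q) :
    Linear (cov G g' (km g)) := by
  intro u v π h
  rw [con_some] at h
  obtain ⟨_, rfl⟩ := h
  exact ⟨_, fun x => rfl⟩

theorem cover_one (G : SimpleGraph U) (g : U × U → ZMod q) :
    ValueOne uniq (cov G g (km g)) := by
  refine ⟨fun x => x.2, fun u v π h => ?_⟩
  rw [con_some] at h
  obtain ⟨h, rfl⟩ := h
  exact h.2.2.2.symm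

theorem lower (q : ℕ) (hq : 2 ≤ q) (δ : ℝ) (hδ : 1 / (q : ℝ) < δ) (hδ1 : δ ≤ 1) :
    ∃ (Δ : ℕ) (c : ℝ), 0 < c ∧ ∀ N : ℕ,
    ∃ (V : Type) (_ : Fintype V) (X X' : Inst (Equiv.Perm (ZMod q)) V),
      N ≤ Fintype.card V ∧ Bipartite X ∧ Linear X ∧ ValueOne uniq X ∧ 0 < numCon X ∧
      (∀ v, (X.gr.neighborSet v).ncard ≤ Δ) ∧
      (Bipartite X' ∧ Linear X' ∧ numCon X' = numCon X ∧
        (∀ v, (X'.gr.neighborSet v).ncard ≤ Δ) ∧
        ∀ L, (numSat uniq X' L : ℝ) ≤ δ * numCon X') ∧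
      ∀ r : ℕ, (r : ℝ) ≤ c * Real.log (Fintype.card V) →
        (∀ v : V, SameView r X (fun _ : Fin 1 => v) X' (fun _ : Fin 1 => v)) ∧
        ∀ P : Process (Equiv.Perm (ZMod q)) (ZMod q) V r,
          pr (P.law X) (fun L => δ * numCon X < numSat uniq X L) ≤
            (Fintype.card V : ℝ) ^ (-c) := by
  have : NeZero q := ⟨by omega⟩
  have hq2 : (2 : ℝ) ≤ q := by exact_mod_cast hq
  have hq0 : 0 < q := by omega
  have hqR : (0 : ℝ) < q := by linarith
  have hδ0 : 0 < δ := lt_trans (by positivity) hδ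
  -- the base value
  obtain ⟨η, hη⟩ : ∃ η : ℝ, η = (δ - 1 / q) / 2 := ⟨_, rfl⟩
  have hη0 : 0 < η := by rw [hη]; linarith
  have hη1 : η ≤ 1 := by
    rw [hη]
    have : 0 < 1 / (q : ℝ) := by positivity
    linarith
  obtain ⟨δ', hδ'⟩ : ∃ δ' : ℝ, δ' = 1 / q + η := ⟨_, rfl⟩
  have hδ'0 : 0 < δ' := by rw [hδ']; positivity
  have hδ'1 : δ' < δ := by rw [hδ', hη]; linarith
  obtain ⟨ρ, hρ⟩ : ∃ ρ : ℝ, ρ = δ' / δ := ⟨_, rfl⟩
  have hρ0 : 0 < ρ := by rw [hρ]; positivity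
  have hρ1 : ρ < 1 := by rw [hρ, div_lt_one hδ0]; exact hδ'1
  obtain ⟨lam, hlam⟩ : ∃ lam : ℝ, lam = Real.log (1 / ρ) := ⟨_, rfl⟩
  have hlam0 : 0 < lam := by
    rw [hlam]
    apply Real.log_pos
    rw [lt_div_iff₀ hρ0]
    linarith
  have hlogq : 0 < Real.log q := Real.log_pos (by linarith)
  obtain ⟨d, hd⟩ : ∃ d : ℕ, d = ⌈8 * Real.log q / η ^ 2⌉₊ + 4 := ⟨_, rfl⟩
  have hd1 : 1 ≤ d := by omega
  have hd2 : 8 * Real.log q / η ^ 2 < d := by
    rw [hd]
    push_cast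
    have := Nat.le_ceil (8 * Real.log q / η ^ 2)
    linarith
  obtain ⟨Δ, hΔ⟩ : ∃ Δ : ℕ, Δ = 32 * (2 * (4 * d) * (8 * (4 * d) + 1)) := ⟨_, rfl⟩
  obtain ⟨D, hD⟩ : ∃ D : ℝ, D = (2 * (4 * d : ℕ) * (8 * (4 * d : ℕ) + 1) : ℝ) := ⟨_, rfl⟩
  have hD1 : 1 ≤ D := by
    rw [hD]
    have : (1 : ℝ) ≤ ((4 * d : ℕ) : ℝ) := by
      have : 1 ≤ 4 * d := by omega
      exact_mod_cast this
    nlinarith
  have hlogD : 0 ≤ Real.log D := Real.log_nonneg hD1
  have hlogq' : 0 < Real.log (2 * q) := Real.log_pos (by linarith)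
  obtain ⟨C1, hC1⟩ : ∃ C1 : ℝ, C1 = Real.log (2 * q) + 5 * Real.log D := ⟨_, rfl⟩
  have hC1pos : 0 < C1 := by rw [hC1]; positivity
  obtain ⟨a, ha⟩ : ∃ a : ℝ, a = 1 / (8 * (1 + Real.log (1 / δ))) := ⟨_, rfl⟩
  have hlogδ : 0 ≤ Real.log (1 / δ) := Real.log_nonneg (by
    rw [le_div_iff₀ hδ0]
    linarith)
  have ha0 : 0 < a := by rw [ha]; positivity
  obtain ⟨D1, hD1'⟩ : ∃ D1 : ℝ, D1 = (Δ : ℝ) + 1 := ⟨_, rfl⟩
  have hD11 : 1 ≤ D1 := by
    rw [hD1']
    have : (0 : ℝ) ≤ Δ := Nat.cast_nonneg _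
    linarith
  have hlogD1 : 0 ≤ Real.log D1 := Real.log_nonneg hD11
  obtain ⟨c, hc⟩ : ∃ c : ℝ, c = min (min (a * lam / 2) (1 / 8))
      (min (1 / (1 + 16 * Real.log D1)) (1 / (4 * C1))) := ⟨_, rfl⟩
  have hc0 : 0 < c := by
    rw [hc]
    refine lt_min (lt_min (by positivity) (by norm_num)) (lt_min (by positivity) (by positivity))
  have hc1 : 2 * c ≤ a * lam := by
    have : c ≤ a * lam / 2 := by rw [hc]; exact (min_le_left _ _).trans (min_le_left _ _)
    linarith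
  have hc3 : c ≤ 1 / 8 := by rw [hc]; exact (min_le_left _ _).trans (min_le_right _ _)
  have hc2 : c * (16 * Real.log D1) ≤ 1 := by
    have h1 : c ≤ 1 / (1 + 16 * Real.log D1) := by
      rw [hc]; exact (min_le_right _ _).trans (min_le_left _ _)
    rw [le_div_iff₀ (by positivity)] at h1
    nlinarith
  have hc4 : c ≤ 1 / (4 * C1) := by rw [hc]; exact (min_le_right _ _).trans (min_le_right _ _)
  refine ⟨Δ, c, hc0, fun N => ?_⟩
  obtain ⟨Z, hZ⟩ : ∃ Z : ℕ, Z = ⌈Real.exp (Real.log (1 + 64 * D1 ^ 2 * q / δ) / c)⌉₊ := ⟨_, rfl⟩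
  obtain ⟨g0, hg0N, hg01, hg0Z⟩ : ∃ g0 : ℕ, N ≤ g0 ∧ 5 ≤ g0 ∧ Z ≤ g0 :=
    ⟨max N (max 5 Z), le_max_left _ _, (le_max_left _ _).trans (le_max_right _ _),
      (le_max_right _ _).trans (le_max_right _ _)⟩
  obtain ⟨U, _, G, h1, h2, h3, h4, h5⟩ := Pool.Agent.TH912.LG.base_edges d g0 (by omega)
  rw [← hD] at h2
  rw [← hΔ] at h3
  obtain ⟨n, hn⟩ : ∃ n : ℕ, n = Fintype.card U := ⟨_, rfl⟩
  rw [← hn] at h1 h2 h5
  have hn1 : 1 ≤ n := by omega
  have hnR : (1 : ℝ) ≤ n := by exact_mod_cast hn1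
  have h5' : d * n ≤ 2 * (E0 G).card := h5
  have hM2 : 2 * n ≤ (E0 G).card := by
    have : 4 * n ≤ d * n := Nat.mul_le_mul_right _ (by omega)
    omega
  have hE : 0 < (E0 G).card := by omega
  have hcardL : Fintype.card (U × Bool → ZMod q) = q ^ (2 * n) := by
    rw [Fintype.card_fun, Fintype.card_prod, Fintype.card_bool, ZMod.card, ← hn, mul_comm n 2]
  obtain ⟨g, hg⟩ := exists_bad (Λ := U × Bool → ZMod q) q hq (E0 G)
    (fun L e => L (e.2, false) - L (e.1, true)) η hη0 hη1 (by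
    rw [hcardL]
    push_cast
    rw [Real.log_pow]
    push_cast
    have h5R : (d : ℝ) * n ≤ 2 * (E0 G).card := by exact_mod_cast h5'
    have e1 : 8 * Real.log q < η ^ 2 * d := by
      rw [div_lt_iff₀ (by positivity)] at hd2
      linarith
    have e2 : 8 * Real.log q * n < η ^ 2 * (2 * (E0 G).card) := by
      calc 8 * Real.log q * n < η ^ 2 * d * n := by
            exact mul_lt_mul_of_pos_right e1 (by linarith)
        _ = η ^ 2 * (d * n) := by ring
        _ ≤ η ^ 2 * (2 * (E0 G).card) := mul_le_mul_of_nonneg_left h5R (by positivity)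
    linarith)
  have hval : ∀ l : U × Bool → ZMod q, (((E0 G).filter fun e =>
      uniq (km g e) (l (e.1, true)) (l (e.2, false))).card : ℝ) ≤ δ' * (E0 G).card := by
    intro l
    refine le_trans ?_ ((hg l).trans (le_of_eq (by rw [hδ'])))
    rw [Nat.cast_le]
    refine card_le_card fun e he => ?_
    rw [mem_filter] at he ⊢
    refine ⟨he.1, ?_⟩
    have h6 : l (e.1, true) + g e = l (e.2, false) := he.2
    rw [← h6]
    ring
  have hV : Fintype.card ((U × Bool) × ZMod q) = 2 * n * q := by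
    rw [Fintype.card_prod, Fintype.card_prod, Fintype.card_bool, ZMod.card, ← hn]
    ring
  refine ⟨(U × Bool) × ZMod q, inferInstance, cov G g (km g), cov G 0 (km g), ?_,
    cover_bip G g g, cover_lin G g g, cover_one G g, ?_, cover_degree G g _ h3,
    ⟨cover_bip G 0 g, cover_lin G 0 g, ?_, cover_degree G 0 _ h3, ?_⟩, ?_⟩
  · rw [hV]
    have : 2 * n * 1 ≤ 2 * n * q := Nat.mul_le_mul_left _ hq0
    omega
  · rw [numCon_cov, card_T0]
    exact Nat.mul_pos hE hq0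
  · rw [numCon_cov, numCon_cov]
  · intro L
    have h6 := base_value G (km g) uniq hval L
    rw [← numSat_cov, ← numCon_cov G 0 (km g)] at h6
    refine le_trans h6 (mul_le_mul_of_nonneg_right hδ'1.le (Nat.cast_nonneg _))
  · intro r hr
    have hnpos : (0 : ℝ) < n := by exact_mod_cast hn1
    have hVpos : (0 : ℝ) < ((2 * n * q : ℕ) : ℝ) := by
      have : 0 < 2 * n * q := by positivity
      exact_mod_cast this
    obtain ⟨x, hx⟩ : ∃ x : ℝ, x = Real.log ((2 * n * q : ℕ) : ℝ) := ⟨_, rfl⟩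
    rw [hV, ← hx] at hr
    have hx0 : 0 ≤ x := by
      rw [hx]
      apply Real.log_nonneg
      have : 1 ≤ 2 * n * q := by
        have : 0 < 2 * n * q := by positivity
        omega
      exact_mod_cast this
    have e1 : x = Real.log (2 * q) + Real.log n := by
      rw [hx, ← Real.log_mul (by positivity) (by positivity)]
      congr 1
      push_cast
      ring
    have e2 : Real.log n ≤ (2 * (g0 : ℕ) + 5) * Real.log D := by
      have := Real.log_le_log hnpos h2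
      rw [Real.log_pow] at this
      push_cast at this
      exact this
    have e3 : x ≤ ((g0 : ℕ) + 1) * C1 := by
      rw [e1, hC1]
      have : (0 : ℝ) ≤ ((g0 : ℕ) : ℝ) := by positivity
      nlinarith
    have e4 : (r : ℝ) ≤ ((g0 : ℕ) + 1) / 4 := by
      refine hr.trans ?_
      calc c * x ≤ 1 / (4 * C1) * (((g0 : ℕ) + 1) * C1) := by gcongr
        _ = ((g0 : ℕ) + 1) / 4 := by field_simp
    have e5 : (4 * r : ℝ) ≤ (g0 : ℕ) + 1 := by linarith
    have e6 : 4 * r ≤ g0 + 1 := by exact_mod_cast e5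
    refine ⟨fun v => ?_, fun P => ?_⟩
    · have hs : ∀ g' : U × U → ZMod q, Spread G g' (km g) (fun _ : Fin 1 => v) r 1 :=
        fun g' _ _ _ => Pool.Agent.TH912.LS.ball_self _ _ _
      exact sameView G g (km g) 0 (hs g) (hs 0) (L := g0) (by omega) (by omega) h4
        fun _ => rfl
    have htail := cover_tail G g (km g) uniq
      (L := g0) h4 (r := r) (by omega) h3 hE (δ := δ') hδ0 hval P
    -- the constants
    have hexpx : Real.exp x = ((2 * n * q : ℕ) : ℝ) := by rw [hx]; exact Real.exp_log hVpos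
    have hER : (0 : ℝ) < (E0 G).card := by exact_mod_cast hE
    have hE8 : (2 * n : ℝ) ≤ (E0 G).card := by exact_mod_cast hM2
    have hnM : (1 : ℝ) / (E0 G).card ≤ q * Real.exp (-x) := by
      rw [Real.exp_neg, hexpx, ← div_eq_mul_inv, div_le_div_iff₀ hER hVpos]
      push_cast
      nlinarith
    have hlarge : Real.log (1 + 64 * D1 ^ 2 * q / δ) ≤ c * x := by
      have z1 : Real.exp (Real.log (1 + 64 * D1 ^ 2 * q / δ) / c) ≤ Z := by
        rw [hZ]; exact Nat.le_ceil _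
      have z2 : (Z : ℝ) ≤ ((2 * n * q : ℕ) : ℝ) := by
        have : Z ≤ 2 * n * q := by
          have : 2 * n * 1 ≤ 2 * n * q := Nat.mul_le_mul_left _ hq0
          omega
        exact_mod_cast this
      have z3 := Real.log_le_log (Real.exp_pos _) (z1.trans z2)
      rw [Real.log_exp, ← hx, div_le_iff₀ hc0] at z3
      linarith
    obtain ⟨m, hm⟩ := analytic' (r := r) (nM := 1 / (E0 G).card) hδ0 hδ1 hD11 ha hρ0 hlam hlam0
      hc0 hc1 hc2 hc3 hx0 hr hnM (by positivity) hlarge (by positivity)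
    have h6 := htail m
    have h8 : (Fintype.card ((U × Bool) × ZMod q) : ℝ) ^ (-c) = Real.exp (-(c * x)) := by
      rw [hV, Real.rpow_def_of_pos hVpos, ← hx]
      congr 1
      ring
    rw [h8]
    refine le_trans h6 (le_trans ?_ hm)
    refine add_le_add (le_of_eq (by rw [hρ])) (le_of_eq ?_)
    rw [hD1', mul_one_div]

end Pool.Agent.H698.LU
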