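import Pool.Agent.H698.LU.Rule
import Pool.Graph.R_pool_sql_team_seeded_3997aac3.Q128.NS.Moment

set_option autoImplicit false

/-! # The rule is optimal up to the constraints between clusters (helper698) -/

namespace Pool.Agent.H698.LU

open Classical Finset
open Pool.Agent.Q128.NS (Inst numCon)

theorem ncard_filter {α : Type} [Fintype α] (P : α → Prop) :
    {x | P x}.ncard = (univ.filter P).card := by
  rw [← Set.ncard_coe_finset]
  congr 1
  ext x
  simp

section

variable {C A V Q : Type} [Finite A] [Finite Q] [Nonempty Q] [Fintype V]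

/-- the satisfied constraints inside the cluster with centre `v` -/
noncomputable def Bs (sat : C → Q → Q → Prop) (T : A → ℕ) (X : Inst C V) (ω : V → A) (v : V)
    (M : V → Q) : Finset (V × V) :=
  univ.filter fun e => Ctr T X ω e.1 v ∧ Ctr T X ω e.2 v ∧
    ∃ c, X.con e.1 e.2 = some c ∧ sat c (M e.1) (M e.2)

omit [Finite A] [Finite Q] [Nonempty Q] in
theorem card_Bs (sat : C → Q → Q → Prop) (T : A → ℕ) (X : Inst C V) (ω : V → A)
    (hω : Function.Injective ω) (v : V) (l : A → Q) :
    (Bs sat T X ω v (fun y => l (ω y))).card =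
      {t ∈ Tri T X ω v | sat t.2.2 (l t.1) (l t.2.1)}.ncard := by
  let f : V × V → A × A × Option C := fun e => (ω e.1, ω e.2, X.con e.1 e.2)
  let g : A × A × C → A × A × Option C := fun t => (t.1, t.2.1, some t.2.2)
  have hf : Function.Injective f := by
    intro e e' h
    simp only [f, Prod.mk.injEq] at h
    exact Prod.ext (hω h.1) (hω h.2.1)
  have hg : Function.Injective g := by
    intro t t' h
    simp only [g, Prod.mk.injEq, Option.some.injEq] at h
    exact Prod.ext h.1 (Prod.ext h.2.1 h.2.2)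
  rw [← Set.ncard_coe_finset, ← Set.ncard_image_of_injective _ hf,
    ← Set.ncard_image_of_injective {t ∈ Tri T X ω v | sat t.2.2 (l t.1) (l t.2.1)} hg]
  congr 1
  ext ⟨a, b, o⟩
  constructor
  · rintro ⟨e, he, h⟩
    simp only [f, Prod.mk.injEq] at h
    obtain ⟨rfl, rfl, rfl⟩ := h
    obtain ⟨-, h1, h2, c, h3, h4⟩ := mem_filter.1 (mem_coe.1 he)
    refine ⟨(ω e.1, ω e.2, c), ⟨⟨e.1, e.2, h1, h2, rfl, rfl, h3⟩, h4⟩, ?_⟩
    simp only [g, Prod.mk.injEq, true_and]
    exact h3.symm
  · rintro ⟨t, ⟨⟨y, z, h1, h2, h3, h4, h5⟩, h6⟩, h⟩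
    simp only [g, Prod.mk.injEq] at h
    obtain ⟨rfl, rfl, rfl⟩ := h
    refine ⟨(y, z), mem_coe.2 (mem_filter.2 ⟨mem_univ _, h1, h2, t.2.2, h5, ?_⟩), ?_⟩
    · show sat t.2.2 (l (ω y)) (l (ω z))
      rw [h3, h4]
      exact h6
    · simp only [f, Prod.mk.injEq]
      exact ⟨h3, h4, h5⟩

theorem Bs_le (sat : C → Q → Q → Prop) (T : A → ℕ) (X : Inst C V) (ω : V → A)
    (hω : Function.Injective ω) (v : V) (L : V → Q) :
    (Bs sat T X ω v L).card ≤ (Bs sat T X ω v (lab sat T X ω)).card := by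
  obtain ⟨l, hl⟩ : ∃ l : A → Q, ∀ y, l (ω y) = L y := by
    refine ⟨fun a => if h : ∃ y, ω y = a then L h.choose else Classical.arbitrary Q, fun y => ?_⟩
    have h : ∃ y', ω y' = ω y := ⟨y, rfl⟩
    dsimp only
    rw [dif_pos h, hω h.choose_spec]
  have h1 : L = fun y => l (ω y) := funext fun y => (hl y).symm
  have h2 : Bs sat T X ω v (lab sat T X ω) =
      Bs sat T X ω v (fun y => best sat (Tri T X ω v) (ω y)) := by
    unfold Bs
    apply filter_congr
    intro e _
    constructor
    · rintro ⟨h1, h2, h3⟩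
      refine ⟨h1, h2, ?_⟩
      rw [lab_eq sat T X ω _ _ h1, lab_eq sat T X ω _ _ h2] at h3
      exact h3
    · rintro ⟨h1, h2, h3⟩
      refine ⟨h1, h2, ?_⟩
      rw [lab_eq sat T X ω _ _ h1, lab_eq sat T X ω _ _ h2]
      exact h3
  rw [h2, h1, card_Bs sat T X ω hω, card_Bs sat T X ω hω]
  exact best_spec sat _ l

/-- the constraints between different clusters -/
noncomputable def cut (T : A → ℕ) (X : Inst C V) (ω : V → A) : Finset (V × V) :=
  univ.filter fun e => X.con e.1 e.2 ≠ none ∧ ¬ ∃ v, Ctr T X ω e.1 v ∧ Ctr T X ω e.2 v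

theorem numSat_le (sat : C → Q → Q → Prop) (T : A → ℕ) (X : Inst C V) (ω : V → A)
    (hω : Function.Injective ω) (L : V → Q) :
    numSat sat X L ≤ numSat sat X (lab sat T X ω) + (cut T X ω).card := by
  unfold numSat
  rw [ncard_filter, ncard_filter]
  have h1 : (univ.filter fun e : V × V => ∃ c, X.con e.1 e.2 = some c ∧
      sat c (L e.1) (L e.2)) ⊆ (univ.biUnion fun v => Bs sat T X ω v L) ∪ cut T X ω := by
    intro e he
    obtain ⟨-, c, h2, h3⟩ := mem_filter.1 he
    by_cases h : ∃ v, Ctr T X ω e.1 v ∧ Ctr T X ω e.2 v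
    · obtain ⟨v, h4, h5⟩ := h
      exact mem_union_left _ (mem_biUnion.2 ⟨v, mem_univ _, mem_filter.2 ⟨mem_univ _, h4, h5,
        c, h2, h3⟩⟩)
    · exact mem_union_right _ (mem_filter.2 ⟨mem_univ _, by rw [h2]; simp, h⟩)
  have h2 : (univ.biUnion fun v => Bs sat T X ω v (lab sat T X ω)) ⊆
      univ.filter fun e : V × V => ∃ c, X.con e.1 e.2 = some c ∧
        sat c (lab sat T X ω e.1) (lab sat T X ω e.2) := by
    intro e he
    obtain ⟨v, -, h3⟩ := mem_biUnion.1 he
    exact mem_filter.2 ⟨mem_univ _, (mem_filter.1 h3).2.2.2⟩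
  have h3 : (univ.biUnion fun v => Bs sat T X ω v (lab sat T X ω)).card =
      ∑ v, (Bs sat T X ω v (lab sat T X ω)).card := by
    apply card_biUnion
    intro v _ v' _ hne
    rw [Function.onFun, disjoint_left]
    intro e h4 h5
    exact hne ((mem_filter.1 h4).2.1.unique (mem_filter.1 h5).2.1)
  have h4 := (card_le_card h1).trans (card_union_le _ _)
  have h5 := card_le_card h2
  refine le_trans (le_of_eq (by congr)) (h4.trans (le_trans ?_
    (Nat.add_le_add_right (h5.trans (le_of_eq (by congr))) _)))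
  calc (univ.biUnion fun v => Bs sat T X ω v L).card + (cut T X ω).card
      ≤ (∑ v, (Bs sat T X ω v L).card) + (cut T X ω).card :=
        Nat.add_le_add_right card_biUnion_le _
    _ ≤ (∑ v, (Bs sat T X ω v (lab sat T X ω)).card) + (cut T X ω).card :=
        Nat.add_le_add_right (sum_le_sum fun v _ => Bs_le sat T X ω hω v L) _
    _ = (univ.biUnion fun v => Bs sat T X ω v (lab sat T X ω)).card + (cut T X ω).card := by
        rw [h3]

end

end Pool.Agent.H698.LU
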