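import Pool.Agent.H698.LU.Opt

set_option autoImplicit false

/-! # The probability that a constraint is cut (helper698) -/

namespace Pool.Agent.H698.LU

open Classical Finset
open Pool.Agent.Q128.NS (Inst numCon)
open Pool.Agent.TH912.LS (ball mem_ball ball_self ball_symm ball_trans ball_mono ball_adj)

theorem sum_union_le {α ι : Type} [DecidableEq α] (s : Finset ι) (B : ι → Finset α) (f : α → ℝ)
    (hf : ∀ a, 0 ≤ f a) : ∑ a ∈ s.biUnion B, f a ≤ ∑ i ∈ s, ∑ a ∈ B i, f a := by
  induction s using Finset.induction_on with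
  | empty => simp
  | insert i s hi ih =>
    rw [biUnion_insert, sum_insert hi]
    have h1 := sum_union_inter (s₁ := B i) (s₂ := s.biUnion B) (f := f)
    have h2 : 0 ≤ ∑ a ∈ B i ∩ s.biUnion B, f a := sum_nonneg fun a _ => hf a
    linarith

/-! ### truncated geometric weights -/

/-- truncated geometric weights -/
noncomputable def gw (β : ℝ) (K t : ℕ) : ℝ := if t < K then (1 - β) * β ^ t else β ^ K

theorem gw_nonneg {β : ℝ} (h0 : 0 ≤ β) (h1 : β ≤ 1) (K t : ℕ) : 0 ≤ gw β K t := by
  unfold gw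
  split_ifs
  · exact mul_nonneg (by linarith) (pow_nonneg h0 _)
  · exact pow_nonneg h0 _

theorem gw_tail (β : ℝ) (K s : ℕ) (hs : s ≤ K) :
    ∑ t ∈ (range (K + 1)).filter (fun t => s ≤ t), gw β K t = β ^ s := by
  have h1 : (range (K + 1)).filter (fun t => s ≤ t) = Ico s (K + 1) := by
    ext t
    simp only [mem_filter, mem_range, mem_Ico]
    omega
  rw [h1, sum_Ico_succ_top hs]
  have h2 : ∀ n, s + n ≤ K → ∑ t ∈ Ico s (s + n), gw β K t = β ^ s - β ^ (s + n) := by
    intro n
    induction n with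
    | zero => intro _; simp
    | succ n ih =>
      intro hn
      rw [← add_assoc, sum_Ico_succ_top (by omega), ih (by omega)]
      unfold gw
      rw [if_pos (by omega)]
      ring
  obtain ⟨n, rfl⟩ : ∃ n, K = s + n := ⟨K - s, by omega⟩
  rw [h2 n le_rfl]
  unfold gw
  rw [if_neg (by omega)]
  ring

theorem gw_sum (β : ℝ) (K : ℕ) : ∑ t ∈ range (K + 1), gw β K t = 1 := by
  have h := gw_tail β K 0 (Nat.zero_le _)
  simpa using h

theorem gw_shift {β : ℝ} (h0 : 0 ≤ β) (K t : ℕ) (ht : t + 3 ≤ K) :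
    β ^ 3 * gw β K t ≤ gw β K (t + 3) := by
  unfold gw
  rw [if_pos (by omega)]
  split_ifs with h
  · apply le_of_eq
    ring
  · have : K = t + 3 := by omega
    subst this
    have h2 : β ^ 3 * ((1 - β) * β ^ t) = (1 - β) * β ^ (t + 3) := by ring
    rw [h2]
    have h3 : 0 ≤ β ^ (t + 3) := pow_nonneg h0 _
    nlinarith

section

variable {C V : Type} [Fintype V] {K M : ℕ}

/-- the seeds: a shift and an identifier -/
abbrev Sd (K M : ℕ) : Type := Fin (K + 1) × Fin M

/-- the shift -/
def Tf (a : Sd K M) : ℕ := a.1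

theorem Tf_le (a : Sd K M) : Tf a ≤ K := Nat.lt_succ_iff.1 a.1.2

/-- the distribution of the seeds -/
noncomputable def pf (β : ℝ) (a : Sd K M) : ℝ := gw β K a.1 / M

/-- the law of the seeds -/
noncomputable def Wt (β : ℝ) (ω : V → Sd K M) : ℝ := ∏ v, pf β (ω v)

theorem pf_nonneg {β : ℝ} (h0 : 0 ≤ β) (h1 : β ≤ 1) (a : Sd K M) : 0 ≤ pf β a :=
  div_nonneg (gw_nonneg h0 h1 _ _) (Nat.cast_nonneg _)

theorem pf_filter {β : ℝ} (hM : 0 < M) (P : ℕ → Prop) :
    ∑ a ∈ (univ : Finset (Sd K M)).filter (fun a => P a.1), pf β a =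
      ∑ t ∈ (range (K + 1)).filter P, gw β K t := by
  have hM' : (M : ℝ) ≠ 0 := by exact_mod_cast hM.ne'
  rw [sum_filter, ← univ_product_univ, sum_product]
  have h1 : ∀ t : Fin (K + 1), ∑ i : Fin M, (if P (t : ℕ) then pf β (t, i) else 0) =
      if P (t : ℕ) then gw β K t else 0 := by
    intro t
    split_ifs with h
    · show ∑ _i : Fin M, gw β K t / (M : ℝ) = gw β K t
      rw [sum_const, card_univ, Fintype.card_fin, nsmul_eq_mul]
      field_simp
    · simp
  rw [sum_congr rfl fun t _ => h1 t, Fin.sum_univ_eq_sum_range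
    (fun t => if P t then gw β K t else 0) (K + 1), sum_filter]

theorem pf_total {β : ℝ} (hM : 0 < M) : ∑ a : Sd K M, pf β a = 1 := by
  have h := pf_filter (K := K) (M := M) (β := β) hM (fun _ => True)
  simp only [filter_true] at h
  rw [h, gw_sum]

theorem pf_id {β : ℝ} (i : Fin M) :
    ∑ a ∈ (univ : Finset (Sd K M)).filter (fun a => a.2 = i), pf β a = 1 / M := by
  rw [sum_filter, ← univ_product_univ, sum_product]
  have h1 : ∀ t : Fin (K + 1), ∑ j : Fin M, (if ((t, j) : Sd K M).2 = i then pf β (t, j) else 0) =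
      gw β K t / M := by
    intro t
    rw [sum_eq_single i]
    · simp [pf]
    · intro j _ hj
      rw [if_neg hj]
    · intro h
      exact absurd (mem_univ _) h
  rw [sum_congr rfl fun t _ => h1 t, ← sum_div, Fin.sum_univ_eq_sum_range
    (fun t => gw β K t) (K + 1), gw_sum]

/-- independence -/
theorem Wt_pi (β : ℝ) (S : V → Finset (Sd K M)) :
    ∑ ω ∈ Fintype.piFinset S, Wt β ω = ∏ v, ∑ a ∈ S v, pf β a := by
  rw [prod_univ_sum]
  rfl

theorem Wt_nonneg {β : ℝ} (h0 : 0 ≤ β) (h1 : β ≤ 1) (ω : V → Sd K M) : 0 ≤ Wt β ω :=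
  prod_nonneg fun _ _ => pf_nonneg h0 h1 _

theorem Wt_total {β : ℝ} (hM : 0 < M) : ∑ ω : V → Sd K M, Wt β ω = 1 := by
  have h := Wt_pi (V := V) (K := K) (M := M) β (fun _ => univ)
  rw [Fintype.piFinset_univ] at h
  rw [h]
  exact prod_eq_one fun v _ => pf_total hM

/-- the law of one seed -/
theorem Wt_one {β : ℝ} (hM : 0 < M) (v : V) (P : Sd K M → Prop) :
    ∑ ω ∈ (univ : Finset (V → Sd K M)).filter (fun ω => P (ω v)), Wt β ω =
      ∑ a ∈ univ.filter P, pf β a := by
  have h := Wt_pi (V := V) (K := K) (M := M) β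
    (fun u => if u = v then univ.filter P else univ)
  have h2 : Fintype.piFinset (fun u : V => if u = v then (univ : Finset (Sd K M)).filter P
      else univ) = univ.filter fun ω : V → Sd K M => P (ω v) := by
    ext ω
    rw [Fintype.mem_piFinset, mem_filter]
    constructor
    · intro h
      have := h v
      rw [if_pos rfl] at this
      exact ⟨mem_univ _, (mem_filter.1 this).2⟩
    · rintro ⟨-, h⟩ u
      split_ifs with hu
      · subst hu
        exact mem_filter.2 ⟨mem_univ _, h⟩
      · exact mem_univ _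
  rw [h2] at h
  rw [h, prod_eq_single v]
  · rw [if_pos rfl]
  · intro u _ hu
    rw [if_neg hu]
    exact pf_total hM
  · intro h
    exact absurd (mem_univ _) h

/-- the law of two identifiers -/
theorem Wt_two {β : ℝ} (hM : 0 < M) (v v' : V) (hne : v ≠ v') :
    ∑ ω ∈ (univ : Finset (V → Sd K M)).filter (fun ω => (ω v).2 = (ω v').2), Wt β ω = 1 / M := by
  have hM' : (M : ℝ) ≠ 0 := by exact_mod_cast hM.ne'
  have h1 : ∀ i : Fin M, ∑ ω ∈ (univ : Finset (V → Sd K M)).filter
      (fun ω => (ω v).2 = i ∧ (ω v').2 = i), Wt β ω = 1 / M * (1 / M) := by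
    intro i
    have h := Wt_pi (V := V) (K := K) (M := M) β
      (fun u => if u = v ∨ u = v' then univ.filter (fun a => a.2 = i) else univ)
    have h2 : Fintype.piFinset (fun u : V => if u = v ∨ u = v' then
        (univ : Finset (Sd K M)).filter (fun a => a.2 = i) else univ) =
        univ.filter fun ω : V → Sd K M => (ω v).2 = i ∧ (ω v').2 = i := by
      ext ω
      rw [Fintype.mem_piFinset, mem_filter]
      constructor
      · intro h
        have e1 := h v
        have e2 := h v'
        rw [if_pos (Or.inl rfl)] at e1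
        rw [if_pos (Or.inr rfl)] at e2
        exact ⟨mem_univ _, (mem_filter.1 e1).2, (mem_filter.1 e2).2⟩
      · rintro ⟨-, h, h'⟩ u
        split_ifs with hu
        · rcases hu with rfl | rfl
          · exact mem_filter.2 ⟨mem_univ _, h⟩
          · exact mem_filter.2 ⟨mem_univ _, h'⟩
        · exact mem_univ _
    rw [h2] at h
    rw [h, ← mul_prod_erase univ _ (mem_univ v), ← mul_prod_erase (univ.erase v) _
      (mem_erase.2 ⟨hne.symm, mem_univ v'⟩), prod_eq_one, if_pos (Or.inl rfl),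
      if_pos (Or.inr rfl), pf_id, mul_one]
    intro u hu
    rw [mem_erase, mem_erase] at hu
    rw [if_neg (by rintro (h | h); exacts [hu.2.1 h, hu.1 h])]
    exact pf_total hM
  have h2 : (univ : Finset (V → Sd K M)).filter (fun ω => (ω v).2 = (ω v').2) =
      (univ : Finset (Fin M)).biUnion fun i => univ.filter
        (fun ω : V → Sd K M => (ω v).2 = i ∧ (ω v').2 = i) := by
    ext ω
    simp only [mem_filter, mem_univ, true_and, mem_biUnion]
    constructor
    · intro h
      exact ⟨_, rfl, h.symm⟩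
    · rintro ⟨i, h, h'⟩
      rw [h, h']
  rw [h2, sum_biUnion, sum_congr rfl fun i _ => h1 i, sum_const, card_univ, Fintype.card_fin,
    nsmul_eq_mul]
  · field_simp
  · intro i _ j _ hij
    rw [Function.onFun, disjoint_left]
    intro ω h h'
    exact hij ((mem_filter.1 h).2.1.symm.trans (mem_filter.1 h').2.1)

/-- two vertices have the same seed -/
def Coll {A : Type} (ω : V → A) : Prop := ¬ Function.Injective ω

/-- two different vertices -/
def Df (p : V × V) : Prop := p.1 ≠ p.2

/-- the same identifier -/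
def Eqi (p : V × V) (ω : V → Sd K M) : Prop := (ω p.1).2 = (ω p.2).2

omit [Fintype V] in
theorem coll_sub {ω : V → Sd K M} (h : Coll ω) : ∃ p, Df p ∧ Eqi p ω := by
  unfold Coll Function.Injective at h
  push Not at h
  obtain ⟨v, v', h3, h4⟩ := h
  exact ⟨(v, v'), h4, by unfold Eqi; rw [h3]⟩

/-- collisions of the seeds are rare -/
theorem Wt_coll {β : ℝ} (h0 : 0 ≤ β) (h1 : β ≤ 1) (hM : 0 < M) :
    ∑ ω ∈ (univ : Finset (V → Sd K M)).filter Coll, Wt β ω ≤ (Fintype.card V : ℝ) ^ 2 / M := by
  have hsub : (univ : Finset (V → Sd K M)).filter Coll ⊆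
      ((univ : Finset (V × V)).filter Df).biUnion fun p =>
        (univ : Finset (V → Sd K M)).filter (Eqi p) := by
    intro ω hω
    obtain ⟨p, h3, h4⟩ := coll_sub (mem_filter.1 hω).2
    exact mem_biUnion.2 ⟨p, mem_filter.2 ⟨mem_univ _, h3⟩, mem_filter.2 ⟨mem_univ _, h4⟩⟩
  have e1 := sum_le_sum_of_subset_of_nonneg hsub
    (fun (ω : V → Sd K M) _ _ => Wt_nonneg h0 h1 ω)
  have e2 := sum_union_le ((univ : Finset (V × V)).filter Df) (fun p =>
        (univ : Finset (V → Sd K M)).filter (Eqi p)) (Wt β) (Wt_nonneg h0 h1)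
  have e3 : ∑ p ∈ (univ : Finset (V × V)).filter Df,
      ∑ ω ∈ (univ : Finset (V → Sd K M)).filter (Eqi p), Wt β ω =
      ∑ p ∈ (univ : Finset (V × V)).filter Df, 1 / (M : ℝ) := by
    refine sum_congr rfl fun p hp => ?_
    have h := Wt_two (K := K) (β := β) hM p.1 p.2 (mem_filter.1 hp).2
    refine Eq.trans (sum_congr ?_ fun _ _ => rfl) h
    ext ω
    simp only [mem_filter, mem_univ, true_and, Eqi]
  have e4 : ∑ p ∈ (univ : Finset (V × V)).filter Df, 1 / (M : ℝ) ≤
      (Fintype.card V : ℝ) ^ 2 / M := by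
    rw [sum_const, nsmul_eq_mul]
    have h2 := card_filter_le (univ : Finset (V × V)) Df
    rw [card_univ, Fintype.card_prod] at h2
    have h3 : ((((univ : Finset (V × V)).filter Df).card : ℕ) : ℝ) ≤ (Fintype.card V : ℝ) ^ 2 := by
      calc ((((univ : Finset (V × V)).filter Df).card : ℕ) : ℝ)
            ≤ ((Fintype.card V * Fintype.card V : ℕ) : ℝ) := by exact_mod_cast h2
          _ = _ := by push_cast; ring
    calc _ ≤ (Fintype.card V : ℝ) ^ 2 * (1 / (M : ℝ)) :=
          mul_le_mul_of_nonneg_right h3 (by positivity)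
      _ = _ := by ring
  exact e1.trans (e2.trans (e3.le.trans e4))

end

end Pool.Agent.H698.LU
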