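import Pool.Agent.H698.LU.Defs
import Pool.Graph.R_seed8.TH912.LS.Lift

set_option autoImplicit false

/-! # Clustering by random shifts as a local rule (helper698) -/

namespace Pool.Agent.H698.LU

open Classical
open Pool.Agent.Q128.NS (Inst SeedView LocalRule)
open Pool.Agent.TH912.LS (ball mem_ball ball_self ball_symm ball_trans ball_mono ball_adj)

section

variable {C A V V' Q : Type} {K : ℕ}

/-- the shift of the vertex `w`, reduced by the distance to `x`, is at least `j` -/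
def Rch (T : A → ℕ) (X : Inst C V) (ω : V → A) (w x : V) (j : ℕ) : Prop :=
  j ≤ T (ω w) ∧ x ∈ ball X.gr w (T (ω w) - j)

/-- `v` is the centre of the cluster of `x` -/
def Ctr (T : A → ℕ) (X : Inst C V) (ω : V → A) (x v : V) : Prop :=
  ∃ j, Rch T X ω v x j ∧ ∀ w, w ≠ v → ¬ Rch T X ω w x j

theorem Rch.anti {T : A → ℕ} {X : Inst C V} {ω : V → A} {w x : V} {i j : ℕ}
    (h : Rch T X ω w x j) (hij : i ≤ j) : Rch T X ω w x i :=
  ⟨hij.trans h.1, ball_mono h.2 (by omega)⟩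

theorem Ctr.unique {T : A → ℕ} {X : Inst C V} {ω : V → A} {x v v' : V}
    (h : Ctr T X ω x v) (h' : Ctr T X ω x v') : v = v' := by
  obtain ⟨j, h1, h2⟩ := h
  obtain ⟨j', h1', h2'⟩ := h'
  by_contra hne
  rcases le_total j j' with hj | hj
  · exact h2 v' (fun h => hne h.symm) (h1'.anti hj)
  · exact h2' v hne (h1.anti hj)

theorem Ctr.ball {T : A → ℕ} (hT : ∀ a, T a ≤ K) {X : Inst C V} {ω : V → A} {x v : V}
    (h : Ctr T X ω x v) : x ∈ ball X.gr v K := by
  obtain ⟨j, h1, -⟩ := h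
  exact ball_mono h1.2 (by have := hT (ω v); omega)

/-- the cluster with centre `v`, seen through the seeds: the triples (seed of `y`, seed of `z`,
constraint from `y` to `z`) for the vertices `y`, `z` of the cluster -/
def Tri (T : A → ℕ) (X : Inst C V) (ω : V → A) (v : V) : Set (A × A × C) :=
  {t | ∃ y z, Ctr T X ω y v ∧ Ctr T X ω z v ∧ ω y = t.1 ∧ ω z = t.2.1 ∧
    X.con y z = some t.2.2}

/-- a labelling of the seeds which satisfies as many as possible of the given triples -/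
noncomputable def best [Finite A] [Finite Q] [Nonempty Q] (sat : C → Q → Q → Prop)
    (S : Set (A × A × C)) : A → Q :=
  (Finite.exists_max fun l : A → Q => {t ∈ S | sat t.2.2 (l t.1) (l t.2.1)}.ncard).choose

theorem best_spec [Finite A] [Finite Q] [Nonempty Q] (sat : C → Q → Q → Prop)
    (S : Set (A × A × C)) (l : A → Q) :
    {t ∈ S | sat t.2.2 (l t.1) (l t.2.1)}.ncard ≤
      {t ∈ S | sat t.2.2 (best sat S t.1) (best sat S t.2.1)}.ncard :=
  (Finite.exists_max fun l : A → Q => {t ∈ S | sat t.2.2 (l t.1) (l t.2.1)}.ncard).choose_spec l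

/-- the label of `x` -/
noncomputable def lab [Finite A] [Finite Q] [Nonempty Q] (sat : C → Q → Q → Prop) (T : A → ℕ)
    (X : Inst C V) (ω : V → A) (x : V) : Q :=
  if h : ∃ v, Ctr T X ω x v then best sat (Tri T X ω h.choose) (ω x)
  else Classical.arbitrary Q

theorem lab_eq [Finite A] [Finite Q] [Nonempty Q] (sat : C → Q → Q → Prop) (T : A → ℕ)
    (X : Inst C V) (ω : V → A) (x v : V) (h : Ctr T X ω x v) :
    lab sat T X ω x = best sat (Tri T X ω v) (ω x) := by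
  have h' : ∃ v, Ctr T X ω x v := ⟨v, h⟩
  unfold lab
  rw [dif_pos h', h'.choose_spec.unique h]

/-! ### invariance -/

/-- an isomorphism of views maps short walks near the root to walks -/
theorem walk_map {r : ℕ} {X : Inst C V} {v : V} {X' : Inst C V'} {v' : V'}
    (e : ball X.gr v r ≃ ball X'.gr v' r)
    (h3 : ∀ x y : ball X.gr v r, X.con (x : V) (y : V) = X'.con (e x : V') (e y : V'))
    {y z : V} (w : X.gr.Walk y z) :
    ∀ (m : ℕ) (_ : y ∈ ball X.gr v m) (_ : m + w.length ≤ r),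
      ∃ (hy' : y ∈ ball X.gr v r) (hz' : z ∈ ball X.gr v r),
        ∃ w' : X'.gr.Walk (e ⟨y, hy'⟩) (e ⟨z, hz'⟩), w'.length = w.length := by
  induction w with
  | nil =>
    intro m hy hm
    have hy' := ball_mono (s := r) hy (by omega)
    exact ⟨hy', hy', SimpleGraph.Walk.nil, rfl⟩
  | @cons y u z h w ih =>
    intro m hy hm
    rw [SimpleGraph.Walk.length_cons] at hm
    have hu : u ∈ ball X.gr v (m + 1) := ball_trans hy (ball_adj h)
    obtain ⟨hu', hz', w', hw'⟩ := ih (m + 1) hu (by omega)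
    have hy' := ball_mono (s := r) hy (by omega)
    have hadj : X'.gr.Adj (e ⟨y, hy'⟩) (e ⟨u, hu'⟩) := by
      obtain ⟨hne, hc⟩ := h
      refine ⟨?_, ?_⟩
      · intro h5
        apply hne
        exact congrArg Subtype.val (e.injective (Subtype.ext h5))
      · rw [← h3 ⟨y, hy'⟩ ⟨u, hu'⟩, ← h3 ⟨u, hu'⟩ ⟨y, hy'⟩]
        exact hc
    exact ⟨hy', hz', SimpleGraph.Walk.cons hadj w', by
      rw [SimpleGraph.Walk.length_cons, SimpleGraph.Walk.length_cons, hw']⟩

/-- isomorphic views, seeds included, with the root mapped to the root -/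
structure View (r : ℕ) (X : Inst C V) (ω : V → A) (v : V) (X' : Inst C V') (ω' : V' → A)
    (v' : V') where
  /-- the bijection of the balls -/
  e : ball X.gr v r ≃ ball X'.gr v' r
  root : (e ⟨v, ball_self _ _ _⟩ : V') = v'
  con : ∀ x y : ball X.gr v r, X.con (x : V) (y : V) = X'.con (e x : V') (e y : V')
  seed : ∀ x : ball X.gr v r, ω (x : V) = ω' (e x : V')

theorem view_of {r : ℕ} {X : Inst C V} {ω : V → A} {v : V} {X' : Inst C V'} {ω' : V' → A}
    {v' : V'} (h : SeedView r X ω v X' ω' v') : Nonempty (View r X ω v X' ω' v') := by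
  obtain ⟨e, h1, -, h3, h4⟩ := h
  exact ⟨⟨e, (h1 ⟨v, ball_self _ _ _⟩).1 rfl, h3, h4⟩⟩

/-- the inverse view -/
def View.symm {r : ℕ} {X : Inst C V} {ω : V → A} {v : V} {X' : Inst C V'} {ω' : V' → A}
    {v' : V'} (φ : View r X ω v X' ω' v') : View r X' ω' v' X ω v where
  e := φ.e.symm
  root := by
    have h : (⟨v', ball_self _ _ _⟩ : ball X'.gr v' r) = φ.e ⟨v, ball_self _ _ _⟩ :=
      Subtype.ext φ.root.symm
    rw [h, Equiv.symm_apply_apply]
  con := fun x y => by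
    rw [φ.con, Equiv.apply_symm_apply, Equiv.apply_symm_apply]
  seed := fun x => by rw [φ.seed, Equiv.apply_symm_apply]

variable {r : ℕ} {X : Inst C V} {ω : V → A} {v : V} {X' : Inst C V'} {ω' : V' → A} {v' : V'}

theorem View.ball_map (φ : View r X ω v X' ω' v') {m n : ℕ} (y z : ball X.gr v r)
    (hy : (y : V) ∈ ball X.gr v m) (hmn : m + n ≤ r) (hz : (z : V) ∈ ball X.gr y n) :
    (φ.e z : V') ∈ ball X'.gr (φ.e y) n := by
  obtain ⟨w, hw⟩ := hz
  obtain ⟨_, _, w', hw'⟩ := walk_map φ.e φ.con w m hy (by omega)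
  exact ⟨w', by omega⟩

theorem View.root_map (φ : View r X ω v X' ω' v') {m : ℕ} (z : ball X.gr v r)
    (hz : (z : V) ∈ ball X.gr v m) (hm : m ≤ r) : (φ.e z : V') ∈ ball X'.gr v' m := by
  have h := φ.ball_map (m := 0) (n := m) ⟨v, ball_self _ _ _⟩ z (ball_self _ _ _) (by omega) hz
  rw [φ.root] at h
  exact h

theorem View.ball_iff (φ : View r X ω v X' ω' v') {m n : ℕ} (y z : ball X.gr v r)
    (hy : (y : V) ∈ ball X.gr v m) (hmn : m + n ≤ r) :
    (z : V) ∈ ball X.gr y n ↔ (φ.e z : V') ∈ ball X'.gr (φ.e y) n := by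
  constructor
  · exact φ.ball_map y z hy hmn
  · intro h
    have h1 := φ.root_map y hy (by omega)
    have h2 := φ.symm.ball_map (φ.e y) (φ.e z) h1 hmn h
    have h3 : φ.symm.e (φ.e z) = z := φ.e.symm_apply_apply z
    have h4 : φ.symm.e (φ.e y) = y := φ.e.symm_apply_apply y
    rw [h3, h4] at h2
    exact h2

theorem View.rch_iff (φ : View r X ω v X' ω' v') {T : A → ℕ} (hT : ∀ a, T a ≤ K) {m : ℕ}
    (hm : m + K ≤ r) (w y : ball X.gr v r) (hy : (y : V) ∈ ball X.gr v m) (j : ℕ) :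
    Rch T X ω w y j ↔ Rch T X' ω' (φ.e w) (φ.e y) j := by
  unfold Rch
  rw [← φ.seed w]
  have h1 : T (ω w) - j ≤ K := (Nat.sub_le _ _).trans (hT _)
  have h2 := φ.ball_iff (m := m) (n := T (ω w) - j) y w hy (by omega)
  constructor
  · rintro ⟨h3, h4⟩
    exact ⟨h3, ball_symm (h2.1 (ball_symm h4))⟩
  · rintro ⟨h3, h4⟩
    exact ⟨h3, ball_symm (h2.2 (ball_symm h4))⟩

theorem View.ctr_map (φ : View r X ω v X' ω' v') {T : A → ℕ} (hT : ∀ a, T a ≤ K) {m : ℕ}
    (hm : m + K ≤ r) (c y : ball X.gr v r) (hy : (y : V) ∈ ball X.gr v m)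
    (h : Ctr T X ω y c) : Ctr T X' ω' (φ.e y) (φ.e c) := by
  obtain ⟨j, h1, h2⟩ := h
  refine ⟨j, (φ.rch_iff hT hm c y hy j).1 h1, fun w' hw' hr => ?_⟩
  have h3 : w' ∈ ball X'.gr v' r := by
    have h4 := φ.root_map y hy (by omega)
    have h5 : (φ.e y : V') ∈ ball X'.gr w' K := ball_mono hr.2 ((Nat.sub_le _ _).trans (hT _))
    exact ball_mono (ball_trans h4 (ball_symm h5)) hm
  obtain ⟨w, hw⟩ := φ.e.surjective ⟨w', h3⟩
  have hw2 : w' = φ.e w := by rw [hw]
  subst hw2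
  refine h2 w (fun h => hw' ?_) ((φ.rch_iff hT hm w y hy j).2 hr)
  have : w = c := Subtype.ext h
  rw [this]

theorem View.ctr_iff (φ : View r X ω v X' ω' v') {T : A → ℕ} (hT : ∀ a, T a ≤ K) {m : ℕ}
    (hm : m + K ≤ r) (c y : ball X.gr v r) (hy : (y : V) ∈ ball X.gr v m) :
    Ctr T X ω y c ↔ Ctr T X' ω' (φ.e y) (φ.e c) := by
  refine ⟨φ.ctr_map hT hm c y hy, fun h => ?_⟩
  have h1 := φ.root_map y hy (by omega)
  have h2 := φ.symm.ctr_map hT hm (φ.e c) (φ.e y) h1 h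
  have h3 : φ.symm.e (φ.e y) = y := φ.e.symm_apply_apply y
  have h4 : φ.symm.e (φ.e c) = c := φ.e.symm_apply_apply c
  rw [h3, h4] at h2
  exact h2

theorem View.tri_sub (φ : View r X ω v X' ω' v') {T : A → ℕ} (hT : ∀ a, T a ≤ K)
    (hr : 3 * K ≤ r) (c : ball X.gr v r) (hc : (c : V) ∈ ball X.gr v K) :
    Tri T X ω c ⊆ Tri T X' ω' (φ.e c) := by
  rintro t ⟨y, z, h1, h2, h3, h4, h5⟩
  have hy : y ∈ ball X.gr v (K + K) := ball_trans hc (h1.ball hT)
  have hz : z ∈ ball X.gr v (K + K) := ball_trans hc (h2.ball hT)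
  have hy' : y ∈ ball X.gr v r := ball_mono hy (by omega)
  have hz' : z ∈ ball X.gr v r := ball_mono hz (by omega)
  refine ⟨φ.e ⟨y, hy'⟩, φ.e ⟨z, hz'⟩, φ.ctr_map hT (m := K + K) (by omega) c ⟨y, hy'⟩ hy h1,
    φ.ctr_map hT (m := K + K) (by omega) c ⟨z, hz'⟩ hz h2, ?_, ?_, ?_⟩
  · rw [← φ.seed ⟨y, hy'⟩]; exact h3
  · rw [← φ.seed ⟨z, hz'⟩]; exact h4
  · rw [← φ.con ⟨y, hy'⟩ ⟨z, hz'⟩]; exact h5

theorem View.tri_eq (φ : View r X ω v X' ω' v') {T : A → ℕ} (hT : ∀ a, T a ≤ K)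
    (hr : 3 * K ≤ r) (c : ball X.gr v r) (hc : (c : V) ∈ ball X.gr v K) :
    Tri T X ω c = Tri T X' ω' (φ.e c) := by
  apply Set.Subset.antisymm (φ.tri_sub hT hr c hc)
  have h1 := φ.root_map c hc (by omega)
  have h2 := φ.symm.tri_sub hT hr (φ.e c) h1
  have h4 : φ.symm.e (φ.e c) = c := φ.e.symm_apply_apply c
  rw [h4] at h2
  exact h2

theorem lab_invariant [Finite A] [Finite Q] [Nonempty Q] (sat : C → Q → Q → Prop) {T : A → ℕ}
    (hT : ∀ a, T a ≤ K) (h : SeedView (3 * K) X ω v X' ω' v') :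
    lab sat T X ω v = lab sat T X' ω' v' := by
  obtain ⟨φ⟩ := view_of h
  by_cases hc : ∃ c, Ctr T X ω v c
  · obtain ⟨c, hc⟩ := hc
    have hcK : c ∈ ball X.gr v K := ball_symm (hc.ball hT)
    have hc' : c ∈ ball X.gr v (3 * K) := ball_mono hcK (by omega)
    have h1 := φ.ctr_map hT (m := 0) (by omega) ⟨c, hc'⟩ ⟨v, ball_self _ _ _⟩ (ball_self _ _ _) hc
    rw [φ.root] at h1
    rw [lab_eq sat T X ω v c hc, lab_eq sat T X' ω' v' _ h1]
    have h2 := φ.tri_eq hT le_rfl ⟨c, hc'⟩ hcK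
    have h3 := φ.seed ⟨v, ball_self _ _ _⟩
    rw [φ.root] at h3
    rw [← h2]
    exact congrArg _ h3
  · have hc' : ¬ ∃ c, Ctr T X' ω' v' c := by
      rintro ⟨c, hc'⟩
      apply hc
      have hcK : c ∈ ball X'.gr v' K := ball_symm (hc'.ball hT)
      have hc'' : c ∈ ball X'.gr v' (3 * K) := ball_mono hcK (by omega)
      have h1 := φ.symm.ctr_map hT (m := 0) (by omega) ⟨c, hc''⟩ ⟨v', ball_self _ _ _⟩
        (ball_self _ _ _) hc'
      rw [φ.symm.root] at h1
      exact ⟨_, h1⟩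
    unfold lab
    rw [dif_neg hc, dif_neg hc']

/-- the local rule -/
noncomputable def rule [Finite A] [Finite Q] [Nonempty Q] (sat : C → Q → Q → Prop) {T : A → ℕ}
    (hT : ∀ a, T a ≤ K) : LocalRule C A Q (3 * K) where
  out X ω v := lab sat T X ω v
  invariant _ _ _ _ _ _ h := lab_invariant sat hT h

end

end Pool.Agent.H698.LU
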