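import Pool.Agent.H698.LU.Clus

set_option autoImplicit false

/-! # Almost optimal labellings by a local rule of logarithmic radius (helper698) -/

namespace Pool.Agent.H698.LU

open Classical Finset
open Pool.Agent.Q128.NS (Inst numCon LocalRule IsDistribution seeds)

theorem expect {C Q V : Type} [Finite Q] [Nonempty Q] [Fintype V] (sat : C → Q → Q → Prop)
    {K M : ℕ} {β : ℝ} (h0 : 0 ≤ β) (h1 : β ≤ 1) (hM : 0 < M) (hK : 2 ≤ K) (X : Inst C V)
    (L : V → Q) :
    (numSat sat X L : ℝ) ≤ (∑ ω : V → Sd K M, Wt β ω * (numSat sat X (lab sat Tf X ω) : ℝ)) +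
      numCon X * (1 - β ^ 3 + Fintype.card V * β ^ (K + 1)) +
      numCon X * ((Fintype.card V : ℝ) ^ 2 / M) := by
  have hle : numSat sat X L ≤ numCon X := by
    apply Set.ncard_le_ncard _ (Set.toFinite _)
    rintro e ⟨c, hc, -⟩
    show X.con e.1 e.2 ≠ none
    rw [hc]
    simp
  have hpt : ∀ ω : V → Sd K M, (numSat sat X L : ℝ) ≤ numSat sat X (lab sat Tf X ω) +
      (cut Tf X ω).card + numCon X * (if Coll ω then (1 : ℝ) else 0) := by
    intro ω
    by_cases hω : Coll ω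
    · rw [if_pos hω]
      have e1 : (numSat sat X L : ℝ) ≤ numCon X := by exact_mod_cast hle
      have e2 : (0 : ℝ) ≤ numSat sat X (lab sat Tf X ω) := Nat.cast_nonneg _
      have e3 : (0 : ℝ) ≤ (cut Tf X ω).card := Nat.cast_nonneg _
      linarith
    · rw [if_neg hω]
      have hinj : Function.Injective ω := not_not.1 hω
      have e1 := numSat_le sat Tf X ω hinj L
      have e2 : (numSat sat X L : ℝ) ≤ numSat sat X (lab sat Tf X ω) +
        (cut Tf X ω).card := by exact_mod_cast e1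
      linarith
  have htot := Wt_total (V := V) (K := K) (M := M) (β := β) hM
  calc (numSat sat X L : ℝ) = ∑ ω : V → Sd K M, Wt β ω * (numSat sat X L : ℝ) := by
        rw [← sum_mul, htot, one_mul]
    _ ≤ ∑ ω : V → Sd K M, Wt β ω * (numSat sat X (lab sat Tf X ω) +
        (cut Tf X ω).card + numCon X * (if Coll ω then (1 : ℝ) else 0)) :=
        sum_le_sum fun ω _ => mul_le_mul_of_nonneg_left (hpt ω) (Wt_nonneg h0 h1 ω)
    _ = (∑ ω : V → Sd K M, Wt β ω * (numSat sat X (lab sat Tf X ω) : ℝ)) +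
        (∑ ω : V → Sd K M, Wt β ω * ((cut Tf X ω).card : ℝ)) +
        numCon X * ∑ ω ∈ (univ : Finset (V → Sd K M)).filter Coll, Wt β ω := by
        rw [sum_filter, mul_sum, ← sum_add_distrib, ← sum_add_distrib]
        refine sum_congr rfl fun ω _ => ?_
        split_ifs <;> ring
    _ ≤ _ := by
        refine add_le_add (add_le_add le_rfl (cut_le h0 h1 hM hK X)) ?_
        exact mul_le_mul_of_nonneg_left (Wt_coll h0 h1 hM) (Nat.cast_nonneg _)

theorem upper {C Q : Type} [Finite Q] [Nonempty Q] (sat : C → Q → Q → Prop) (ε : ℝ) (hε : 0 < ε)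
    (hε1 : ε ≤ 1) (n : ℕ) (hn : 1 ≤ n) :
    ∃ r : ℕ, (r : ℝ) ≤ 27 / ε * Real.log (3 * n / ε) + 9 ∧
      ∃ (A : Type) (_ : Finite A) (p : A → ℝ) (R : LocalRule C A Q r), IsDistribution p ∧
        ∀ (V : Type) [Fintype V], Fintype.card V ≤ n → ∀ (X : Inst C V) (L : V → Q),
          (numSat sat X L : ℝ) - ε * numCon X ≤
            ∑ᶠ ω : V → A, seeds p ω * numSat sat X (R.out X ω) := by
  have hnR : (1 : ℝ) ≤ n := by exact_mod_cast hn
  have hn0 : (0 : ℝ) < n := by linarith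
  obtain ⟨β, hβ⟩ : ∃ β : ℝ, β = 1 - ε / 9 := ⟨_, rfl⟩
  have h0 : 0 ≤ β := by rw [hβ]; linarith
  have h1 : β ≤ 1 := by rw [hβ]; linarith
  have hlog : 0 ≤ Real.log (3 * n / ε) := by
    apply Real.log_nonneg
    rw [le_div_iff₀ hε]
    linarith
  obtain ⟨K, hK⟩ : ∃ K : ℕ, K = ⌈9 / ε * Real.log (3 * n / ε)⌉₊ + 2 := ⟨_, rfl⟩
  obtain ⟨M, hM⟩ : ∃ M : ℕ, M = ⌈3 * (n : ℝ) ^ 2 / ε⌉₊ + 1 := ⟨_, rfl⟩
  have hM0 : 0 < M := by omega
  have hK2 : 2 ≤ K := by omega
  refine ⟨3 * K, ?_, Sd K M, inferInstance, pf β, rule sat (K := K) (T := Tf) Tf_le, ?_, ?_⟩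
  · have h2 : 0 ≤ 9 / ε * Real.log (3 * n / ε) := by positivity
    have h3 := (Nat.ceil_lt_add_one h2).le
    push_cast
    rw [hK]
    push_cast
    have h4 : 27 / ε * Real.log (3 * n / ε) = 3 * (9 / ε * Real.log (3 * n / ε)) := by ring
    rw [h4]
    linarith
  · refine ⟨fun a => pf_nonneg h0 h1 a, ?_⟩
    rw [finsum_eq_sum_of_fintype]
    exact pf_total hM0
  · intro V _ hV X L
    have hVR : (Fintype.card V : ℝ) ≤ n := by exact_mod_cast hV
    have hmain := expect sat h0 h1 hM0 hK2 X L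
    have e0 : ∑ᶠ ω : V → Sd K M, seeds (pf β) ω *
        (numSat sat X ((rule sat (K := K) (T := Tf) Tf_le).out X ω) : ℝ) =
        ∑ ω : V → Sd K M, Wt β ω * (numSat sat X (lab sat Tf X ω) : ℝ) := by
      rw [finsum_eq_sum_of_fintype]
      refine sum_congr rfl fun ω _ => ?_
      congr 1
      exact finprod_eq_prod_of_fintype _
    rw [e0]
    have e1 : 1 - β ^ 3 ≤ ε / 3 := by
      have := one_add_mul_le_pow (a := -(ε / 9)) (by linarith) 3
      have e : (1 + -(ε / 9)) ^ 3 = β ^ 3 := by rw [hβ]; ring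
      rw [e] at this
      push_cast at this
      linarith
    have e2 : (Fintype.card V : ℝ) * β ^ (K + 1) ≤ ε / 3 := by
      have g1 : β ≤ Real.exp (-(ε / 9)) := by
        have := Real.add_one_le_exp (-(ε / 9))
        rw [hβ]
        linarith
      have g2 : β ^ (K + 1) ≤ Real.exp (-(ε / 9)) ^ (K + 1) := pow_le_pow_left₀ h0 g1 _
      have g3 : Real.exp (-(ε / 9)) ^ (K + 1) = Real.exp (-(((K + 1 : ℕ) : ℝ) * (ε / 9))) := by
        rw [← Real.exp_nat_mul]
        congr 1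
        ring
      have g4 : Real.log (3 * n / ε) ≤ ((K + 1 : ℕ) : ℝ) * (ε / 9) := by
        have := Nat.le_ceil (9 / ε * Real.log (3 * n / ε))
        have g5 : 9 / ε * Real.log (3 * n / ε) ≤ ((K + 1 : ℕ) : ℝ) := by
          rw [hK]
          push_cast
          linarith
        calc Real.log (3 * n / ε) = 9 / ε * Real.log (3 * n / ε) * (ε / 9) := by field_simp
          _ ≤ _ := mul_le_mul_of_nonneg_right g5 (by positivity)
      have g6 : β ^ (K + 1) ≤ ε / (3 * n) := by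
        calc β ^ (K + 1) ≤ Real.exp (-(((K + 1 : ℕ) : ℝ) * (ε / 9))) := g2.trans g3.le
          _ ≤ Real.exp (-Real.log (3 * n / ε)) := Real.exp_le_exp.mpr (by linarith)
          _ = ε / (3 * n) := by
              rw [Real.exp_neg, Real.exp_log (by positivity), inv_div]
      calc (Fintype.card V : ℝ) * β ^ (K + 1) ≤ n * (ε / (3 * n)) := by
            apply mul_le_mul hVR g6 (pow_nonneg h0 _) hn0.le
        _ = ε / 3 := by field_simp
    have e3 : (Fintype.card V : ℝ) ^ 2 / M ≤ ε / 3 := by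
      have g1 : 3 * (n : ℝ) ^ 2 / ε ≤ M := by
        rw [hM]
        push_cast
        have := Nat.le_ceil (3 * (n : ℝ) ^ 2 / ε)
        linarith
      have hMR : (0 : ℝ) < M := by exact_mod_cast hM0
      rw [div_le_iff₀ hMR]
      rw [div_le_iff₀ hε] at g1
      have g2 : (Fintype.card V : ℝ) ^ 2 ≤ (n : ℝ) ^ 2 :=
        pow_le_pow_left₀ (Nat.cast_nonneg _) hVR 2
      nlinarith
    have hc : (0 : ℝ) ≤ numCon X := Nat.cast_nonneg _
    have e4 : (numCon X : ℝ) * (1 - β ^ 3 + Fintype.card V * β ^ (K + 1)) +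
        numCon X * ((Fintype.card V : ℝ) ^ 2 / M) ≤ ε * numCon X := by
      have : (1 - β ^ 3 + Fintype.card V * β ^ (K + 1)) + (Fintype.card V : ℝ) ^ 2 / M ≤ ε := by
        linarith
      nlinarith [mul_le_mul_of_nonneg_left this hc]
    linarith

end Pool.Agent.H698.LU
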